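import Mathlib

/-!
# Covering lemmas for sets of integers: elements all of whose neighbourhoods are neither sparse nor
dense
-/

set_option autoImplicit false

namespace Pool.Agent.Q273.CI

open Finset

open Classical in
/-- the number of elements of `P` in `[a, b)` -/
noncomputable def cnt (P : ℤ → Prop) (a b : ℤ) : ℕ := ((Ico a b).filter P).card

lemma cnt_add (P : ℤ → Prop) {a b c : ℤ} (hab : a ≤ b) (hbc : b ≤ c) :
    cnt P a b + cnt P b c = cnt P a c := by
  classical
  unfold cnt
  rw [← card_union_of_disjoint]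
  · congr 1
    ext n
    simp only [mem_union, mem_filter, mem_Ico]
    constructor
    · rintro (⟨h1, h2⟩ | ⟨h1, h2⟩)
      · exact ⟨⟨h1.1, by omega⟩, h2⟩
      · exact ⟨⟨by omega, h1.2⟩, h2⟩
    · rintro ⟨h1, h2⟩
      by_cases h : n < b
      · exact Or.inl ⟨⟨h1.1, h⟩, h2⟩
      · exact Or.inr ⟨⟨by omega, h1.2⟩, h2⟩
  · rw [disjoint_left]
    intro n h1 h2
    simp only [mem_filter, mem_Ico] at h1 h2
    omega

lemma cnt_mono (P : ℤ → Prop) {a b a' b' : ℤ} (h : a' ≤ a) (h' : b ≤ b') : cnt P a b ≤ cnt P a' b' := by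
  classical
  apply card_le_card
  intro n hn
  simp only [mem_filter, mem_Ico] at hn ⊢
  exact ⟨⟨by omega, by omega⟩, hn.2⟩

lemma cnt_imp {P Q : ℤ → Prop} (h : ∀ n, P n → Q n) (a b : ℤ) : cnt P a b ≤ cnt Q a b := by
  classical
  apply card_le_card
  intro n hn
  simp only [mem_filter] at hn ⊢
  exact ⟨hn.1, h n hn.2⟩

lemma cnt_le (P : ℤ → Prop) (a : ℤ) (d : ℕ) : cnt P a (a + d) ≤ d := by
  classical
  unfold cnt
  refine (card_filter_le _ _).trans ?_
  rw [Int.card_Ico]
  omega

lemma cnt_or (P Q R : ℤ → Prop) (a b : ℤ) (h : ∀ n, P n → Q n ∨ R n) : cnt P a b ≤ cnt Q a b + cnt R a b := by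
  classical
  refine le_trans (card_le_card ?_) (card_union_le _ _)
  intro n hn
  simp only [mem_union, mem_filter] at hn ⊢
  rcases h n hn.2 with h1 | h1
  · exact Or.inl ⟨hn.1, h1⟩
  · exact Or.inr ⟨hn.1, h1⟩

lemma cnt_one_pos (P : ℤ → Prop) (a : ℤ) (h : P a) : cnt P a (a + 1) = 1 := by
  classical
  unfold cnt
  have : (Ico a (a + 1)).filter P = {a} := by
    ext n
    simp only [mem_filter, mem_Ico, mem_singleton]
    constructor
    · rintro ⟨h1, -⟩; omega
    · rintro rfl; exact ⟨by omega, h⟩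
  rw [this, card_singleton]

lemma cnt_one_neg (P : ℤ → Prop) (a : ℤ) (h : ¬ P a) : cnt P a (a + 1) = 0 := by
  classical
  unfold cnt
  rw [card_eq_zero, filter_eq_empty_iff]
  intro n hn
  rw [mem_Ico] at hn
  have : n = a := by omega
  rwa [this]

lemma cnt_refl (P : ℤ → Prop) (a b : ℤ) : cnt (fun n => P (-n)) a b = cnt P (1 - b) (1 - a) := by
  classical
  unfold cnt
  apply card_bij (fun n _ => -n)
  · intro n hn
    simp only [mem_filter, mem_Ico] at hn ⊢
    exact ⟨by omega, hn.2⟩
  · intro n _ m _ h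
    omega
  · intro m hm
    simp only [mem_filter, mem_Ico] at hm
    exact ⟨-m, by simp only [mem_filter, mem_Ico, neg_neg]; exact ⟨by omega, hm.2⟩, by ring⟩

/-- all right windows up to the length `K` contain many elements -/
def Rich (P : ℤ → Prop) (c : ℝ) (K : ℕ) (n : ℤ) : Prop :=
  ∀ H : ℕ, 1 ≤ H → H ≤ K → c * H ≤ cnt P n (n + H)

/-- some right window contains too many elements -/
def Dense (P : ℤ → Prop) (μ : ℝ) (T K : ℕ) (n : ℤ) : Prop :=
  ∃ H : ℕ, T ≤ H ∧ H ≤ K ∧ μ * H < cnt P n (n + H)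

/-- few elements are not rich -/
theorem ladder (P : ℤ → Prop) (c : ℝ) (hc : 0 < c) (K : ℕ) (d : ℕ) : ∀ a : ℤ,
    (cnt (fun n => P n ∧ ¬ Rich P c K n) a (a + d) : ℝ) ≤ c * (d + K) := by
  have key : ∀ d : ℕ, ∀ a : ℤ, (cnt P a (a + d) : ℝ) ≤ c * (d + K) +
      cnt (fun n => P n ∧ Rich P c K n) a (a + d) := by
    intro d
    induction d using Nat.strong_induction_on with
    | _ d ih =>
      intro a
      have hK0 : (0 : ℝ) ≤ K := Nat.cast_nonneg K
      rcases Nat.eq_zero_or_pos d with rfl | hd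
      · have : cnt P a (a + (0 : ℕ)) = 0 := by
          have := cnt_le P a 0
          omega
        rw [this]
        push_cast
        positivity
      have hd1 : (1 : ℝ) ≤ d := by exact_mod_cast hd
      have e1 : a + (d : ℤ) = a + 1 + ((d - 1 : ℕ) : ℤ) := by
        rw [Nat.cast_sub hd]; ring
      have e2 : ((d - 1 : ℕ) : ℝ) = d - 1 := by rw [Nat.cast_sub hd]; simp
      by_cases hP : P a
      · by_cases hR : Rich P c K a
        · have h1 := ih (d - 1) (by omega) (a + 1)
          have h2 := cnt_add P (a := a) (b := a + 1) (c := a + d) (by omega) (by omega)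
          have h3 := cnt_add (fun n => P n ∧ Rich P c K n) (a := a) (b := a + 1) (c := a + d)
            (by omega) (by omega)
          rw [cnt_one_pos P a hP] at h2
          rw [cnt_one_pos (fun n => P n ∧ Rich P c K n) a ⟨hP, hR⟩] at h3
          rw [← h2, ← h3]
          rw [← e1, e2] at h1
          push_cast
          linarith
        · unfold Rich at hR
          push Not at hR
          obtain ⟨H, hH1, hHK, hH⟩ := hR
          have hHKr : (H : ℝ) ≤ K := by exact_mod_cast hHK
          by_cases hend : d ≤ H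
          · have h1 : cnt P a (a + d) ≤ cnt P a (a + H) := cnt_mono P le_rfl (by omega)
            have h1' : (cnt P a (a + d) : ℝ) ≤ cnt P a (a + H) := by exact_mod_cast h1
            have h2 : (0 : ℝ) ≤ cnt (fun n => P n ∧ Rich P c K n) a (a + d) := Nat.cast_nonneg _
            have h3 : c * H ≤ c * (d + K) := by
              apply mul_le_mul_of_nonneg_left _ hc.le
              linarith
            linarith
          · push Not at hend
            have h1 := ih (d - H) (by omega) (a + H)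
            have e3 : a + (H : ℤ) + ((d - H : ℕ) : ℤ) = a + d := by
              rw [Nat.cast_sub hend.le]; ring
            rw [e3] at h1
            have h2 := cnt_add P (a := a) (b := a + H) (c := a + d) (by omega) (by omega)
            have h4 : cnt (fun n => P n ∧ Rich P c K n) (a + H) (a + d) ≤
                cnt (fun n => P n ∧ Rich P c K n) a (a + d) := cnt_mono _ (by omega) le_rfl
            have h4' : (cnt (fun n => P n ∧ Rich P c K n) (a + H) (a + d) : ℝ) ≤
                cnt (fun n => P n ∧ Rich P c K n) a (a + d) := by exact_mod_cast h4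
            have e4 : ((d - H : ℕ) : ℝ) = d - H := Nat.cast_sub hend.le
            rw [e4] at h1
            rw [← h2]
            push_cast
            nlinarith
      · have h1 := ih (d - 1) (by omega) (a + 1)
        have h2 := cnt_add P (a := a) (b := a + 1) (c := a + d) (by omega) (by omega)
        rw [cnt_one_neg P a hP, zero_add] at h2
        have h4 : cnt (fun n => P n ∧ Rich P c K n) (a + 1) (a + d) ≤
            cnt (fun n => P n ∧ Rich P c K n) a (a + d) := cnt_mono _ (by omega) le_rfl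
        have h4' : (cnt (fun n => P n ∧ Rich P c K n) (a + 1) (a + d) : ℝ) ≤
            cnt (fun n => P n ∧ Rich P c K n) a (a + d) := by exact_mod_cast h4
        rw [← e1, e2] at h1
        rw [← h2]
        nlinarith
  intro a
  have h1 := key d a
  have h2 : cnt (fun n => P n ∧ ¬ Rich P c K n) a (a + d) + cnt (fun n => P n ∧ Rich P c K n) a (a + d) =
      cnt P a (a + d) := by
    classical
    unfold cnt
    rw [← card_union_of_disjoint]
    · congr 1
      ext n
      simp only [mem_union, mem_filter]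
      tauto
    · rw [disjoint_left]
      intro n h1 h2
      simp only [mem_filter] at h1 h2
      exact h1.2.2 h2.2.2
  have h3 : (cnt (fun n => P n ∧ ¬ Rich P c K n) a (a + d) : ℝ) +
      cnt (fun n => P n ∧ Rich P c K n) a (a + d) = cnt P a (a + d) := by exact_mod_cast h2
  linarith

/-- the dense points are covered by few windows -/
theorem dense_cover (P : ℤ → Prop) (μ : ℝ) (hμ : 0 ≤ μ) (T K : ℕ) (hT : 1 ≤ T) (d : ℕ) : ∀ a : ℤ,
    μ * (cnt (Dense P μ T K) a (a + d) : ℝ) ≤ cnt P a (a + d + K) := by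
  induction d using Nat.strong_induction_on with
  | _ d ih =>
    intro a
    rcases Nat.eq_zero_or_pos d with rfl | hd
    · have : cnt (Dense P μ T K) a (a + (0 : ℕ)) = 0 := by
        have := cnt_le (Dense P μ T K) a 0
        omega
      rw [this]
      push_cast
      rw [mul_zero]
      exact Nat.cast_nonneg _
    have e1 : a + (d : ℤ) = a + 1 + ((d - 1 : ℕ) : ℤ) := by
      rw [Nat.cast_sub hd]; ring
    by_cases hD : Dense P μ T K a
    · obtain ⟨H, hTH, hHK, hH⟩ := hD
      by_cases hend : d ≤ H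
      · have h1 : (cnt (Dense P μ T K) a (a + d) : ℝ) ≤ H := by
          exact_mod_cast (cnt_le _ a d).trans hend
        have h2 : (cnt P a (a + H) : ℝ) ≤ cnt P a (a + d + K) := by
          exact_mod_cast cnt_mono P le_rfl (by omega)
        calc μ * (cnt (Dense P μ T K) a (a + d) : ℝ) ≤ μ * H := by gcongr
          _ ≤ _ := hH.le.trans h2
      · push Not at hend
        have h1 := ih (d - H) (by omega) (a + H)
        have e3 : a + (H : ℤ) + ((d - H : ℕ) : ℤ) = a + d := by
          rw [Nat.cast_sub hend.le]; ring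
        rw [e3] at h1
        have h2 := cnt_add P (a := a) (b := a + H) (c := a + d + K) (by omega) (by omega)
        have h3 := cnt_add (Dense P μ T K) (a := a) (b := a + H) (c := a + d) (by omega) (by omega)
        have h4 : (cnt (Dense P μ T K) a (a + H) : ℝ) ≤ H := by exact_mod_cast cnt_le _ a H
        have h2' : (cnt P a (a + H) : ℝ) + cnt P (a + H) (a + d + K) = cnt P a (a + d + K) := by
          exact_mod_cast h2
        have h3' : (cnt (Dense P μ T K) a (a + H) : ℝ) + cnt (Dense P μ T K) (a + H) (a + d) =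
            cnt (Dense P μ T K) a (a + d) := by exact_mod_cast h3
        rw [← h3', ← h2', mul_add]
        have h5 : μ * (cnt (Dense P μ T K) a (a + H) : ℝ) ≤ μ * H := by gcongr
        linarith
    · have h1 := ih (d - 1) (by omega) (a + 1)
      have h2 := cnt_add (Dense P μ T K) (a := a) (b := a + 1) (c := a + d) (by omega) (by omega)
      rw [cnt_one_neg _ a hD, zero_add] at h2
      rw [← e1] at h1
      rw [← h2]
      refine h1.trans ?_
      exact_mod_cast cnt_mono P (by omega) le_rfl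

open Classical in
/-- few elements lie in dense windows -/
theorem dense_elems (P : ℤ → Prop) (μ : ℝ) (hμ : 0 < μ) (T K : ℕ) (hT : 1 ≤ T) (a : ℤ) (d : ℕ)
    (C0 S2 : ℝ) (hC0 : (cnt P (a - T) (a + d + K + T) : ℝ) ≤ C0)
    (hS2 : ∑ n ∈ Ico (a - T) (a + d), ((cnt P n (n + T) : ℕ) : ℝ) ^ 2 ≤ S2) :
    ((T : ℝ) * cnt (fun n => P n ∧ Dense P (2 * μ) T K n) a (a + d)) ^ 2 * μ ≤ C0 * S2 := by
  set G : Finset ℤ := (Ico a (a + d)).filter (fun n => P n ∧ Dense P (2 * μ) T K n) with hG
  set B : Finset ℤ := (Ico (a - T) (a + d)).filter (Dense P μ T (K + T)) with hB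
  have hcG : cnt (fun n => P n ∧ Dense P (2 * μ) T K n) a (a + d) = G.card := by
    rw [hG]
    unfold cnt
    congr
  -- double counting
  have h1 : T * G.card ≤ ∑ n ∈ B, cnt P n (n + T) := by
    have h2 : ∀ p ∈ G, T ≤ (B.filter fun n => n ≤ p ∧ p < n + T).card := by
      intro p hp
      rw [hG, mem_filter, mem_Ico] at hp
      obtain ⟨⟨hp1, hp2⟩, hp3, H, hH1, hH2, hH3⟩ := hp
      have h3 : Ioc (p - T) p ⊆ B.filter fun n => n ≤ p ∧ p < n + T := by
        intro n hn
        rw [mem_Ioc] at hn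
        rw [mem_filter, hB, mem_filter, mem_Ico]
        refine ⟨⟨⟨by omega, by omega⟩, H + T, by omega, by omega, ?_⟩, hn.2, by omega⟩
        have h4 : (cnt P p (p + H) : ℝ) ≤ cnt P n (n + ((H + T : ℕ) : ℤ)) := by
          exact_mod_cast cnt_mono P (by omega) (by push_cast; omega)
        have h5 : (T : ℝ) ≤ H := by exact_mod_cast hH1
        calc μ * ((H + T : ℕ) : ℝ) ≤ 2 * μ * H := by push_cast; nlinarith
          _ < cnt P p (p + H) := hH3
          _ ≤ _ := h4
      have h4 := card_le_card h3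
      rw [Int.card_Ioc] at h4
      omega
    calc T * G.card = ∑ _p ∈ G, T := by rw [sum_const, smul_eq_mul, mul_comm]
      _ ≤ ∑ p ∈ G, (B.filter fun n => n ≤ p ∧ p < n + T).card := sum_le_sum h2
      _ = ∑ n ∈ B, (G.filter fun p => n ≤ p ∧ p < n + T).card := by
          simp only [card_filter]
          rw [sum_comm]
      _ ≤ ∑ n ∈ B, cnt P n (n + T) := by
          apply sum_le_sum
          intro n _
          apply card_le_card
          intro p hp
          rw [mem_filter, hG, mem_filter] at hp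
          rw [mem_filter, mem_Ico]
          exact ⟨hp.2, hp.1.2.1⟩
  have h1r : (T : ℝ) * G.card ≤ ∑ n ∈ B, ((cnt P n (n + T) : ℕ) : ℝ) := by exact_mod_cast h1
  have h2 : ∑ n ∈ B, ((cnt P n (n + T) : ℕ) : ℝ) ^ 2 ≤ S2 := by
    refine le_trans ?_ hS2
    apply sum_le_sum_of_subset_of_nonneg
    · exact filter_subset _ _
    · intro n _ _; positivity
  have h3 : (∑ n ∈ B, ((cnt P n (n + T) : ℕ) : ℝ)) ^ 2 ≤ (B.card : ℝ) * ∑ n ∈ B, ((cnt P n (n + T) : ℕ) : ℝ) ^ 2 :=
    sq_sum_le_card_mul_sum_sq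
  have h4 : μ * (B.card : ℝ) ≤ C0 := by
    have h5 := dense_cover P μ hμ.le T (K + T) hT (T + d) (a - T)
    have e1 : a - (T : ℤ) + ((T + d : ℕ) : ℤ) = a + d := by push_cast; ring
    rw [e1] at h5
    have e2 : a + (d : ℤ) + ((K + T : ℕ) : ℤ) = a + d + K + T := by push_cast; ring
    rw [e2] at h5
    exact h5.trans hC0
  have hS0 : 0 ≤ S2 := le_trans (sum_nonneg fun _ _ => by positivity) hS2
  rw [hcG]
  calc ((T : ℝ) * G.card) ^ 2 * μ ≤ (∑ n ∈ B, ((cnt P n (n + T) : ℕ) : ℝ)) ^ 2 * μ := by gcongr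
    _ ≤ ((B.card : ℝ) * ∑ n ∈ B, ((cnt P n (n + T) : ℕ) : ℝ) ^ 2) * μ := by gcongr
    _ ≤ ((B.card : ℝ) * S2) * μ := by gcongr
    _ = (μ * (B.card : ℝ)) * S2 := by ring
    _ ≤ C0 * S2 := by gcongr

/-- the elements all of whose neighbourhoods are neither sparse nor dense -/
def Nice (P : ℤ → Prop) (c μ : ℝ) (T K : ℕ) (n : ℤ) : Prop :=
  P n ∧ (∀ H : ℕ, 1 ≤ H → H ≤ K → c * H ≤ cnt P n (n + H) ∧ c * H ≤ cnt P (n + 1 - H) (n + 1)) ∧
    ∀ H : ℕ, T ≤ H → H ≤ K → (cnt P n (n + H) : ℝ) ≤ μ * H ∧ (cnt P (n + 1 - H) (n + 1) : ℝ) ≤ μ * H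

open Classical in
/-- most elements are nice -/
theorem nice_elems (P : ℤ → Prop) (c μ : ℝ) (hc : 0 < c) (hμ : 0 < μ) (T K : ℕ) (hT : 1 ≤ T) (a : ℤ)
    (d : ℕ) (C0 S2 M : ℝ) (hC0 : (cnt P (a - K - T) (a + d + K + T) : ℝ) ≤ C0)
    (hS2 : ∑ n ∈ Ico (a - T) (a + d + 1), ((cnt P n (n + T) : ℕ) : ℝ) ^ 2 ≤ S2)
    (hM : 0 ≤ M) (hCS : C0 * S2 ≤ (T * M) ^ 2 * (μ / 2)) :
    (cnt P a (a + d) : ℝ) ≤ cnt (Nice P c μ T K) a (a + d) + 2 * (c * (d + K)) + 2 * M := by
  have hTr : (1 : ℝ) ≤ T := by exact_mod_cast hT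
  set P' : ℤ → Prop := fun n => P (-n) with hP'
  have hrefl : ∀ a b : ℤ, cnt P' a b = cnt P (1 - b) (1 - a) := cnt_refl P
  have hS0 : 0 ≤ S2 := le_trans (sum_nonneg fun _ _ => by positivity) hS2
  -- the four exceptional sets
  have h1 := ladder P c hc K d a
  have h2 := ladder P' c hc K d (1 - (a + d))
  have h3 : ((T : ℝ) * cnt (fun n => P n ∧ Dense P (2 * (μ / 2)) T K n) a (a + d)) ^ 2 * (μ / 2) ≤
      C0 * S2 := by
    apply dense_elems P (μ / 2) (by linarith) T K hT a d
    · refine le_trans ?_ hC0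
      exact_mod_cast cnt_mono P (by omega) (by omega)
    · refine le_trans ?_ hS2
      apply sum_le_sum_of_subset_of_nonneg
      · intro n hn
        rw [mem_Ico] at hn ⊢
        omega
      · intro n _ _; positivity
  have h4 : ((T : ℝ) * cnt (fun n => P' n ∧ Dense P' (2 * (μ / 2)) T K n) (1 - (a + d)) (1 - (a + d) + d)) ^ 2
      * (μ / 2) ≤ C0 * S2 := by
    apply dense_elems P' (μ / 2) (by linarith) T K hT (1 - (a + d)) d
    · rw [hrefl]
      refine le_trans ?_ hC0
      exact_mod_cast cnt_mono P (by omega) (by omega)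
    · refine le_trans ?_ hS2
      have e1 : ∑ n ∈ Ico (1 - (a + d) - (T : ℤ)) (1 - (a + d) + d), ((cnt P' n (n + T) : ℕ) : ℝ) ^ 2 =
          ∑ n ∈ Ico (a + 1 - (T : ℤ)) (a + d + 1), ((cnt P n (n + T) : ℕ) : ℝ) ^ 2 := by
        apply sum_bij (fun n _ => 1 - (n + (T : ℤ)))
        · intro n hn
          rw [mem_Ico] at hn ⊢
          omega
        · intro n _ m _ h
          omega
        · intro m hm
          rw [mem_Ico] at hm
          exact ⟨1 - m - T, by rw [mem_Ico]; omega, by ring⟩
        · intro n _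
          rw [hrefl]
          congr 3
          ring
      rw [e1]
      apply sum_le_sum_of_subset_of_nonneg
      · intro n hn
        rw [mem_Ico] at hn ⊢
        omega
      · intro n _ _; positivity
  have e0 : 2 * (μ / 2) = μ := by ring
  rw [e0] at h3 h4
  have hsq : ∀ z : ℝ, 0 ≤ z → (T * z) ^ 2 * (μ / 2) ≤ C0 * S2 → z ≤ M := by
    intro z hz h
    have h5 : (T * z) ^ 2 * (μ / 2) ≤ (T * M) ^ 2 * (μ / 2) := h.trans hCS
    have h6 : (T * z) ^ 2 ≤ (T * M) ^ 2 := le_of_mul_le_mul_right h5 (by linarith)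
    have h7 : T * z ≤ T * M := le_of_sq_le_sq h6 (by positivity)
    exact le_of_mul_le_mul_left h7 (by linarith)
  have h3' := hsq _ (Nat.cast_nonneg _) h3
  have h4' := hsq _ (Nat.cast_nonneg _) h4
  -- reflection back
  have e2 : ∀ Q : ℤ → Prop, cnt (fun n => Q n) (1 - (a + d)) (1 - (a + d) + d) =
      cnt (fun n => Q (-n)) a (a + d) := by
    intro Q
    rw [cnt_refl Q a (a + d)]
    congr 1
    ring
  rw [e2 (fun n => P' n ∧ ¬ Rich P' c K n)] at h2
  rw [e2 (fun n => P' n ∧ Dense P' μ T K n)] at h4'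
  have hsplit : cnt P a (a + d) ≤ cnt (Nice P c μ T K) a (a + d) +
      (cnt (fun n => P n ∧ ¬ Rich P c K n) a (a + d) +
      (cnt (fun n => P' (-n) ∧ ¬ Rich P' c K (-n)) a (a + d) +
      (cnt (fun n => P n ∧ Dense P μ T K n) a (a + d) +
      cnt (fun n => P' (-n) ∧ Dense P' μ T K (-n)) a (a + d)))) := by
    refine (cnt_or P (Nice P c μ T K) (fun n => (P n ∧ ¬ Rich P c K n) ∨ ((P' (-n) ∧ ¬ Rich P' c K (-n)) ∨
      ((P n ∧ Dense P μ T K n) ∨ (P' (-n) ∧ Dense P' μ T K (-n))))) a (a + d) ?_).trans ?_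
    · intro n hn
      by_cases r1 : Rich P c K n
      · by_cases r2 : Rich P' c K (-n)
        · by_cases r3 : Dense P μ T K n
          · exact Or.inr (Or.inr (Or.inr (Or.inl ⟨hn, r3⟩)))
          · by_cases r4 : Dense P' μ T K (-n)
            · refine Or.inr (Or.inr (Or.inr (Or.inr ⟨?_, r4⟩)))
              simpa [hP'] using hn
            · left
              have e3 : ∀ H : ℕ, cnt P' (-n) (-n + H) = cnt P (n + 1 - H) (n + 1) := by
                intro H
                rw [hrefl]
                congr 1 <;> ring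
              refine ⟨hn, fun H hH1 hH2 => ⟨r1 H hH1 hH2, ?_⟩, fun H hH1 hH2 => ⟨?_, ?_⟩⟩
              · have := r2 H hH1 hH2
                rwa [e3] at this
              · by_contra hlt
                push Not at hlt
                exact r3 ⟨H, hH1, hH2, hlt⟩
              · by_contra hlt
                push Not at hlt
                refine r4 ⟨H, hH1, hH2, ?_⟩
                rwa [e3]
        · refine Or.inr (Or.inr (Or.inl ⟨?_, r2⟩))
          simpa [hP'] using hn
      · exact Or.inr (Or.inl ⟨hn, r1⟩)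
    · refine Nat.add_le_add_left ?_ _
      refine (cnt_or _ _ _ a (a + d) (fun n hn => hn)).trans (Nat.add_le_add_left ?_ _)
      refine (cnt_or _ _ _ a (a + d) (fun n hn => hn)).trans (Nat.add_le_add_left ?_ _)
      exact cnt_or _ _ _ a (a + d) (fun n hn => hn)
  have hsplitr : (cnt P a (a + d) : ℝ) ≤ cnt (Nice P c μ T K) a (a + d) +
      (cnt (fun n => P n ∧ ¬ Rich P c K n) a (a + d) +
      (cnt (fun n => P' (-n) ∧ ¬ Rich P' c K (-n)) a (a + d) +
      (cnt (fun n => P n ∧ Dense P μ T K n) a (a + d) +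
      cnt (fun n => P' (-n) ∧ Dense P' μ T K (-n)) a (a + d)))) := by exact_mod_cast hsplit
  linarith

end Pool.Agent.Q273.CI
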