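import Mathlib
import Pool.Agent.Q273.CH.Exc6

/-!
# Cantor trees with sparse exceptional windows, densities `(log X)^(-A)`: the numbers
-/

set_option autoImplicit false

namespace Pool.Agent.Q273.CI

open Set Filter Topology MeasureTheory
open scoped ENNReal NNReal
open Pool.Agent.Q273.CH (XB XB_facts XB_tendsto ev_log ev_pow half_floor quot_ge Dat wcnt card_range_ge)

/-- powers of logarithms against powers -/
lemma ev_logA (K a : ℝ) (A : ℕ) (ha : 0 < a) : ∀ᶠ y : ℝ in atTop, K * Real.log y ^ A ≤ y ^ a := by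
  have h1 := (isLittleO_log_rpow_rpow_atTop (A : ℝ) ha).def (show (0 : ℝ) < 1 / (|K| + 1) by positivity)
  filter_upwards [h1, eventually_ge_atTop (1 : ℝ)] with y hy hy1
  have hl : 0 ≤ Real.log y := Real.log_nonneg hy1
  have hp : 0 ≤ y ^ a := Real.rpow_nonneg (by linarith) a
  rw [Real.rpow_natCast, Real.norm_of_nonneg (pow_nonneg hl A), Real.norm_of_nonneg hp] at hy
  have h2 : (|K| + 1) * Real.log y ^ A ≤ y ^ a := by
    calc (|K| + 1) * Real.log y ^ A ≤ (|K| + 1) * (1 / (|K| + 1) * y ^ a) := by gcongr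
      _ = y ^ a := by field_simp
  have h3 : K ≤ |K| + 1 := (le_abs_self K).trans (by linarith)
  exact (mul_le_mul_of_nonneg_right h3 (pow_nonneg hl A)).trans h2

/-- the power of the logarithm of the position bound -/
lemma XB_logA (v : ℝ) (hv : 0 < v) (A : ℕ) : ∀ᶠ y : ℝ in atTop, 0 < Real.log (XB v y) ^ A ∧
    Real.log (XB v y) ^ A ≤ 2 ^ A * Real.log y ^ A := by
  filter_upwards [XB_facts v hv] with y hy
  obtain ⟨a1, a2, a3, a4, a5, a6⟩ := hy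
  refine ⟨pow_pos a5 A, ?_⟩
  rw [← mul_pow]
  exact pow_le_pow_left₀ a5.le a6 A

/-- the window and the threshold -/
lemma HG_factsA (A : ℕ) (v h δ η : ℝ) (hv : 0 < v) (hh : 0 < h) (hη : h < η) (hδ : 0 < δ) :
    ∀ᶠ y : ℝ in atTop, 2 ≤ ⌊((XB v y : ℕ) : ℝ) ^ h⌋₊ ∧
      ((⌊((XB v y : ℕ) : ℝ) ^ h⌋₊ : ℕ) : ℝ) ≤ ((XB v y : ℕ) : ℝ) ^ h ∧
      ((XB v y : ℕ) : ℝ) ^ h ≤ (v + 2) ^ h * y ^ h ∧
      ((⌊((XB v y : ℕ) : ℝ) ^ h⌋₊ : ℕ) : ℝ) + 2 ≤ y ^ η / 4 ∧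
      2 * (16 * ((⌊((XB v y : ℕ) : ℝ) ^ h⌋₊ : ℕ) : ℝ)) ≤ y ^ η ∧
      4 ≤ δ * ((XB v y : ℕ) : ℝ) ^ h / Real.log (XB v y) ^ A := by
  filter_upwards [XB_facts v hv, ev_pow 2 h hh, ev_pow (32 * ((v + 2) ^ h + 2)) (η - h) (by linarith),
    ev_logA (4 * 2 ^ A / δ) h A hh, XB_logA v hv A] with y hy1 hy2 hy3 hy4 hy5
  obtain ⟨a7, a8⟩ := hy5
  obtain ⟨a1, a2, a3, a4, a5, a6⟩ := hy1
  have hy0 : 0 < y := by linarith
  set X : ℝ := ((XB v y : ℕ) : ℝ) with hX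
  have hX0 : 0 < X := by linarith
  have b1 : y ^ h ≤ X ^ h := Real.rpow_le_rpow hy0.le a2 hh.le
  have b2 : X ^ h ≤ (v + 2) ^ h * y ^ h := by
    rw [← Real.mul_rpow (by linarith) hy0.le]
    exact Real.rpow_le_rpow hX0.le a3 hh.le
  have b3 : ((⌊X ^ h⌋₊ : ℕ) : ℝ) ≤ X ^ h := Nat.floor_le (Real.rpow_nonneg hX0.le _)
  have b4 : 32 * ((v + 2) ^ h + 2) * y ^ h ≤ y ^ η := by
    have : y ^ η = y ^ (η - h) * y ^ h := by rw [← Real.rpow_add hy0]; congr 1; ring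
    rw [this]
    exact mul_le_mul_of_nonneg_right hy3 (Real.rpow_nonneg hy0.le _)
  have b5 : 1 ≤ y ^ h := by linarith
  have b6 : 0 < (v + 2) ^ h := Real.rpow_pos_of_pos (by linarith) _
  refine ⟨Nat.le_floor (by push_cast; linarith), b3, b2, ?_, ?_, ?_⟩
  · nlinarith
  · nlinarith
  · rw [le_div_iff₀ a7]
    have h1 : 4 * 2 ^ A / δ * Real.log y ^ A * δ = 4 * (2 ^ A * Real.log y ^ A) := by field_simp
    have h2 : 4 * 2 ^ A / δ * Real.log y ^ A * δ ≤ X ^ h * δ :=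
      mul_le_mul_of_nonneg_right (hy4.trans b1) hδ.le
    rw [h1] at h2
    linarith

/-- the recursion for the number of the nodes which do not survive -/
lemma rec_factsA (A : ℕ) (v h δ ρ C κ : ℝ) (hv : 0 < v) (hh : 0 < h) (hC : 1 < C) (hη : h < 1 - 1 / C)
    (hδ : 0 < δ) (hρ0 : 0 ≤ ρ) (hκ : 0 < κ) (hκρ : κ ≤ (1 - ρ) / 2) :
    ∀ᶠ y : ℝ in atTop, ∀ x : ℝ, 1 ≤ x → x ^ C ≤ y →
      8 / (y / x) * (((XB v y : ℕ) : ℝ) ^ ρ + 2 * ((⌊((XB v y : ℕ) : ℝ) ^ h⌋₊ : ℕ) : ℝ) /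
        (δ * ((XB v y : ℕ) : ℝ) ^ h / Real.log (XB v y) ^ A) * y ^ (1 - κ)) ≤ x ^ (1 - κ) := by
  have hC0 : 0 < C := by linarith
  have hiC : 0 < 1 / C := by positivity
  have hiC1 : 1 / C < 1 := by rw [div_lt_one hC0]; exact hC
  filter_upwards [XB_facts v hv, HG_factsA A v h δ (1 - 1 / C) hv hh hη hδ,
    ev_pow (16 * (v + 2) ^ ρ) (1 - ρ - κ / C) (by
      have : κ / C ≤ κ := div_le_self hκ.le hC.le
      linarith),
    ev_logA (32 * 2 ^ A / δ) (κ * (1 - 1 / C)) A (by apply mul_pos hκ; linarith), XB_logA v hv A] with y hy1 hy2 hy3 hy4 hy5 x hx1 hxy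
  obtain ⟨a7, a8⟩ := hy5
  obtain ⟨a1, a2, a3, a4, a5, a6⟩ := hy1
  obtain ⟨-, b3, -, -, -, -⟩ := hy2
  have hy0 : 0 < y := by linarith
  have hx0 : 0 < x := by linarith
  set X : ℝ := ((XB v y : ℕ) : ℝ) with hX
  have hX0 : 0 < X := by linarith
  have hXh : 0 < X ^ h := Real.rpow_pos_of_pos hX0 _
  have hxC : x ≤ y ^ (1 / C) := by
    calc x = (x ^ C) ^ (1 / C) := by
          rw [← Real.rpow_mul hx0.le]
          have : C * (1 / C) = 1 := by field_simp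
          rw [this, Real.rpow_one]
      _ ≤ y ^ (1 / C) := Real.rpow_le_rpow (Real.rpow_nonneg hx0.le _) hxy (by positivity)
  have hxκ : x ^ κ ≤ y ^ (κ / C) := by
    calc x ^ κ ≤ (y ^ (1 / C)) ^ κ := Real.rpow_le_rpow hx0.le hxC hκ.le
      _ = y ^ (κ / C) := by rw [← Real.rpow_mul hy0.le]; congr 1; ring
  -- the quotient
  set W : ℝ := Real.log X ^ A with hW
  set w : ℝ := 2 ^ A * Real.log y ^ A with hw
  have hHG : 2 * ((⌊X ^ h⌋₊ : ℕ) : ℝ) / (δ * X ^ h / W) ≤ 2 * w / δ := by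
    rw [div_div_eq_mul_div, div_le_div_iff₀ (by positivity) hδ]
    calc 2 * ((⌊X ^ h⌋₊ : ℕ) : ℝ) * W * δ ≤ 2 * X ^ h * w * δ := by
          gcongr
      _ = 2 * w * (δ * X ^ h) := by ring
  have e1 : X ^ ρ ≤ (v + 2) ^ ρ * y ^ ρ := by
    rw [← Real.mul_rpow (by linarith) hy0.le]
    exact Real.rpow_le_rpow hX0.le a3 hρ0
  have hly : 0 ≤ Real.log y := Real.log_nonneg a1
  have hw0 : 0 ≤ w := by rw [hw]; positivity
  have hy1κ : 0 < y ^ (1 - κ) := Real.rpow_pos_of_pos hy0 _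
  have main : 8 * y ^ (κ / C) * (X ^ ρ + 2 * w / δ * y ^ (1 - κ)) ≤ y := by
    have m1 : 8 * y ^ (κ / C) * X ^ ρ ≤ y / 2 := by
      calc 8 * y ^ (κ / C) * X ^ ρ ≤ 8 * y ^ (κ / C) * ((v + 2) ^ ρ * y ^ ρ) := by gcongr
        _ = (16 * (v + 2) ^ ρ) * (y ^ (κ / C) * y ^ ρ) / 2 := by ring
        _ ≤ y ^ (1 - ρ - κ / C) * (y ^ (κ / C) * y ^ ρ) / 2 := by gcongr
        _ = y / 2 := by
            rw [← Real.rpow_add hy0, ← Real.rpow_add hy0]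
            have : 1 - ρ - κ / C + (κ / C + ρ) = 1 := by ring
            rw [this, Real.rpow_one]
    have m2 : 8 * y ^ (κ / C) * (2 * w / δ * y ^ (1 - κ)) ≤ y / 2 := by
      calc 8 * y ^ (κ / C) * (2 * w / δ * y ^ (1 - κ)) =
          (32 * 2 ^ A / δ * Real.log y ^ A) * (y ^ (κ / C) * y ^ (1 - κ)) / 2 := by
            rw [hw]; ring
        _ ≤ y ^ (κ * (1 - 1 / C)) * (y ^ (κ / C) * y ^ (1 - κ)) / 2 := by gcongr
        _ = y / 2 := by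
            rw [← Real.rpow_add hy0, ← Real.rpow_add hy0]
            have : κ * (1 - 1 / C) + (κ / C + (1 - κ)) = 1 := by ring
            rw [this, Real.rpow_one]
    calc 8 * y ^ (κ / C) * (X ^ ρ + 2 * w / δ * y ^ (1 - κ)) =
        8 * y ^ (κ / C) * X ^ ρ + 8 * y ^ (κ / C) * (2 * w / δ * y ^ (1 - κ)) := by ring
      _ ≤ y := by linarith
  have e2 : 8 / (y / x) * (X ^ ρ + 2 * ((⌊X ^ h⌋₊ : ℕ) : ℝ) /
        (δ * X ^ h / W) * y ^ (1 - κ)) ≤ 8 / (y / x) * (X ^ ρ + 2 * w / δ * y ^ (1 - κ)) := by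
    gcongr
  refine e2.trans ?_
  have e3 : 8 / (y / x) * (X ^ ρ + 2 * w / δ * y ^ (1 - κ)) =
      x ^ (1 - κ) * ((8 * x ^ κ * (X ^ ρ + 2 * w / δ * y ^ (1 - κ))) / y) := by
    have hxx : x = x ^ (1 - κ) * x ^ κ := by
      rw [← Real.rpow_add hx0]
      have : 1 - κ + κ = 1 := by ring
      rw [this, Real.rpow_one]
    have : 8 / (y / x) = 8 * x / y := by field_simp
    rw [this]
    generalize (X ^ ρ + 2 * w / δ * y ^ (1 - κ)) = z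
    nth_rewrite 1 [hxx]
    ring
  rw [e3]
  have hpos : 0 ≤ X ^ ρ + 2 * w / δ * y ^ (1 - κ) := by positivity
  have e4 : (8 * x ^ κ * (X ^ ρ + 2 * w / δ * y ^ (1 - κ))) / y ≤ 1 := by
    rw [div_le_one hy0]
    refine le_trans ?_ main
    gcongr
  have hx1κ : 0 ≤ x ^ (1 - κ) := Real.rpow_nonneg hx0.le _
  calc x ^ (1 - κ) * ((8 * x ^ κ * (X ^ ρ + 2 * w / δ * y ^ (1 - κ))) / y) ≤ x ^ (1 - κ) * 1 := by
        gcongr
    _ = x ^ (1 - κ) := mul_one _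

end Pool.Agent.Q273.CI
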