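import Mathlib
import Pool.Agent.Q273.CI.Cov
import Pool.Agent.W123.LR.Fin

/-!
# Primes whose neighbourhoods at all scales contain the right order of primes, in short intervals
-/

set_option autoImplicit false

namespace Pool.Agent.Q273.CI

open Finset Filter Topology
open Pool.Agent.H357R2.SI (pc)

/-- the primes as a set of integers -/
def Pz (n : ℤ) : Prop := n.toNat.Prime

lemma cnt_Pz (a m : ℕ) : cnt Pz ((a : ℤ) + 1) ((a : ℤ) + 1 + m) = pc a (a + m) := by
  classical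
  unfold cnt pc
  apply card_bij (fun n _ => n.toNat)
  · intro n hn
    simp only [mem_filter, mem_Ico, mem_Ioc, Pz] at hn ⊢
    exact ⟨by omega, hn.2⟩
  · intro n hn m hm h
    simp only [mem_filter, mem_Ico] at hn hm
    omega
  · intro q hq
    simp only [mem_filter, mem_Ioc] at hq
    refine ⟨q, ?_, by simp⟩
    simp only [mem_filter, mem_Ico, Pz, Int.toNat_natCast]
    exact ⟨by omega, hq.2⟩

/-- the Brun–Titchmarsh theorem for all intervals of integers -/
lemma bt_int : ∃ Y₀ : ℕ, 2 ≤ Y₀ ∧ ∀ (a : ℤ) (m : ℕ), Y₀ ≤ m →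
    (cnt Pz a (a + m) : ℝ) ≤ 3 * m / Real.log m := by
  classical
  obtain ⟨Y₀, h2, h⟩ := Pool.Agent.H932R4.MO.bt3
  refine ⟨Y₀, h2, fun a m hm => ?_⟩
  have key : ∀ A : ℕ, (cnt Pz ((A : ℤ) + 1) ((A : ℤ) + 1 + m) : ℝ) ≤ 3 * m / Real.log m := by
    intro A
    rw [cnt_Pz]
    exact h A m hm
  by_cases ha : 1 ≤ a
  · obtain ⟨A, hA⟩ : ∃ A : ℕ, a = (A : ℤ) + 1 := ⟨(a - 1).toNat, by omega⟩
    rw [hA]
    exact key A
  · push Not at ha
    refine le_trans ?_ (key 0)
    have h3 : cnt Pz a (a + m) ≤ cnt Pz (((0 : ℕ) : ℤ) + 1) (((0 : ℕ) : ℤ) + 1 + m) := by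
      apply card_le_card
      intro n hn
      simp only [mem_filter, mem_Ico, Pz] at hn ⊢
      have := hn.2.two_le
      exact ⟨by omega, hn.2⟩
    exact_mod_cast h3

/-- the number of primes in the interval `[x, y]` of real numbers -/
noncomputable def primesIn (x y : ℝ) : ℕ := ((Finset.Icc ⌈x⌉₊ ⌊y⌋₊).filter Nat.Prime).card

lemma primesIn_right (p : ℕ) (H : ℝ) (hH : 0 ≤ H) :
    primesIn p (p + H) = cnt Pz p ((p : ℤ) + ⌊H⌋₊ + 1) := by
  classical
  unfold primesIn cnt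
  have h1 : ⌊(p : ℝ) + H⌋₊ = p + ⌊H⌋₊ := by
    rw [add_comm, Nat.floor_add_natCast hH, add_comm]
  rw [Nat.ceil_natCast, h1]
  symm
  apply card_bij (fun n _ => n.toNat)
  · intro n hn
    simp only [mem_filter, mem_Ico, mem_Icc, Pz] at hn ⊢
    exact ⟨by omega, hn.2⟩
  · intro n hn m hm h
    simp only [mem_filter, mem_Ico] at hn hm
    omega
  · intro q hq
    simp only [mem_filter, mem_Icc] at hq
    refine ⟨q, ?_, by simp⟩
    simp only [mem_filter, mem_Ico, Pz, Int.toNat_natCast]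
    exact ⟨by omega, hq.2⟩

lemma primesIn_left (p : ℕ) (H : ℝ) (hH : 0 ≤ H) (hHp : H ≤ p) :
    primesIn (p - H) p = cnt Pz ((p : ℤ) - ⌊H⌋₊) ((p : ℤ) + 1) := by
  classical
  unfold primesIn cnt
  have h0 : ⌊H⌋₊ ≤ p := by
    have : (⌊H⌋₊ : ℝ) ≤ p := (Nat.floor_le hH).trans hHp
    exact_mod_cast this
  have h1 : ⌈(p : ℝ) - H⌉₊ = p - ⌊H⌋₊ := by
    apply le_antisymm
    · rw [Nat.ceil_le, Nat.cast_sub h0]
      linarith [Nat.floor_le hH]
    · have h2 : (p : ℝ) - H ≤ ⌈(p : ℝ) - H⌉₊ := Nat.le_ceil _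
      have h3 := Nat.lt_floor_add_one H
      have h4 : (p : ℝ) < ⌈(p : ℝ) - H⌉₊ + (⌊H⌋₊ + 1) := by linarith
      have h5 : p < ⌈(p : ℝ) - H⌉₊ + (⌊H⌋₊ + 1) := by exact_mod_cast h4
      omega
  rw [Nat.floor_natCast, h1]
  symm
  apply card_bij (fun n _ => n.toNat)
  · intro n hn
    simp only [mem_filter, mem_Ico, mem_Icc, Pz] at hn ⊢
    exact ⟨by omega, hn.2⟩
  · intro n hn m hm h
    simp only [mem_filter, mem_Ico] at hn hm
    omega
  · intro q hq
    simp only [mem_filter, mem_Icc] at hq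
    refine ⟨q, ?_, by simp⟩
    simp only [mem_filter, mem_Ico, Pz, Int.toNat_natCast]
    exact ⟨by omega, hq.2⟩

/-- `p` is a prime number and all intervals `[p, p + H]`, `[p - H, p]` with `log p ≤ H ≤ p` contain
between `c₁ H / log p` and `c₂ H / log p` primes -/
def AllScales (c₁ c₂ : ℝ) (p : ℕ) : Prop :=
  p.Prime ∧ ∀ H : ℝ, Real.log p ≤ H → H ≤ p →
    c₁ * H / Real.log p ≤ primesIn p (p + H) ∧ c₁ * H / Real.log p ≤ primesIn (p - H) p ∧
      (primesIn p (p + H) : ℝ) ≤ c₂ * H / Real.log p ∧ (primesIn (p - H) p : ℝ) ≤ c₂ * H / Real.log p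

open Classical in
/-- transfer of the nice elements to natural numbers -/
lemma nice_transfer (X Y : ℕ) (N : ℤ → Prop) (F : ℕ → Prop)
    (h : ∀ p : ℕ, X < p → p ≤ X + Y → N p → F p) :
    cnt N ((X : ℤ) + 1) ((X : ℤ) + 1 + Y) ≤ ((Finset.Ioc X (X + Y)).filter F).card := by
  unfold cnt
  apply card_le_card_of_injOn (fun n => n.toNat)
  · intro n hn
    simp only [coe_filter, mem_Ico, mem_Ioc, Set.mem_ofPred_eq] at hn ⊢
    refine ⟨by omega, h _ (by omega) (by omega) ?_⟩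
    have : ((n.toNat : ℕ) : ℤ) = n := by omega
    rw [this]
    exact hn.2
  · intro n hn m hm h'
    simp only [coe_filter, mem_Ico, Set.mem_ofPred_eq] at hn hm
    simp only at h'
    omega

/-- nice primes are good at all scales -/
lemma nice_good (θ₀ θ cS c' lam : ℝ) (X₀ Y₀ X Y T p : ℕ) (hθ0 : 0 < θ₀) (hθ : 0 < θ) (hcS : 0 < cS) (hc' : 0 < c')
    (hlam : 0 < lam)
    (hS : ∀ X Y : ℕ, X₀ ≤ X → (X : ℝ) ^ θ₀ ≤ Y → Y ≤ X →
      cS * Y / Real.log X ≤ (((Finset.Ioc X (X + Y)).filter Nat.Prime).card : ℝ))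
    (hbt : ∀ (a : ℤ) (m : ℕ), Y₀ ≤ m → (cnt Pz a (a + m) : ℝ) ≤ 3 * m / Real.log m)
    (hX1 : 8 ≤ Real.log X) (hX2 : 2 * X₀ + 2 ≤ X) (hY1 : Real.log X ≤ θ⁻¹ * Real.log Y)
    (hY2 : Y₀ + 4 ≤ Y) (hY3 : (16 : ℝ) * (X : ℝ) ^ θ₀ ≤ Y) (hYX : Y ≤ X) (hT : (T : ℝ) ≤ Real.log X / 2)
    (hp1 : X < p) (hp2 : p ≤ X + Y)
    (hn : Nice Pz (c' / Real.log X) (lam / Real.log X) T (2 * Y) p) :
    AllScales (min (c' / 2) (cS / 4)) (max (4 * lam) (12 / θ)) p := by
  set L := Real.log X with hL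
  have hX0 : (0 : ℝ) < X := by
    have : 0 < X := by omega
    exact_mod_cast this
  have hX2r : (2 : ℝ) ≤ X := by exact_mod_cast (by omega : 2 ≤ X)
  have hpX : (X : ℝ) ≤ p := by exact_mod_cast hp1.le
  have hp2X : (p : ℝ) ≤ 2 * X := by exact_mod_cast (by omega : p ≤ 2 * X)
  set l := Real.log p with hl
  have hLl : L ≤ l := Real.log_le_log hX0 hpX
  have hl2 : l ≤ 2 * L := by
    calc l ≤ Real.log ((X : ℝ) ^ 2) := Real.log_le_log (by linarith) (by nlinarith)
      _ = 2 * L := by rw [Real.log_pow, ← hL]; norm_num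
  have hL0 : 0 < L := by linarith
  have hl0 : 0 < l := by linarith
  have hc1 : min (c' / 2) (cS / 4) ≤ c' / 2 := min_le_left _ _
  have hc1' : min (c' / 2) (cS / 4) ≤ cS / 4 := min_le_right _ _
  have hc2 : 4 * lam ≤ max (4 * lam) (12 / θ) := le_max_left _ _
  have hc2' : 12 / θ ≤ max (4 * lam) (12 / θ) := le_max_right _ _
  obtain ⟨hn0, hn1, hn2⟩ := hn
  have hpp : p.Prime := by
    unfold Pz at hn0
    simpa using hn0
  refine ⟨hpp, fun H hH1 hH2 => ?_⟩
  have hH8 : 8 ≤ H := by linarith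
  have hH0 : 0 ≤ H := by linarith
  rw [primesIn_right p H hH0, primesIn_left p H hH0 hH2]
  set h := ⌊H⌋₊ with hh
  have hh1 : (h : ℝ) ≤ H := Nat.floor_le hH0
  have hh2 : H < h + 1 := Nat.lt_floor_add_one H
  have hh3 : 8 ≤ h := Nat.le_floor (by exact_mod_cast hH8)
  have hh3r : (8 : ℝ) ≤ h := by exact_mod_cast hh3
  have hhp : h ≤ p := by
    have : (h : ℝ) ≤ p := hh1.trans hH2
    exact_mod_cast this
  -- the two lower and the two upper bounds from estimates for `cnt`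
  have up : ∀ z : ℝ, z ≤ 4 * lam * H / l ∨ z ≤ 12 / θ * H / l → z ≤ max (4 * lam) (12 / θ) * H / l := by
    intro z hz
    rcases hz with hz | hz
    · refine hz.trans ?_
      gcongr
    · refine hz.trans ?_
      gcongr
  have lo : ∀ z : ℝ, c' / 2 * H / l ≤ z ∨ cS / 4 * H / l ≤ z → min (c' / 2) (cS / 4) * H / l ≤ z := by
    intro z hz
    rcases hz with hz | hz
    · refine le_trans ?_ hz
      gcongr
    · refine le_trans ?_ hz
      gcongr
  by_cases hHY : H ≤ Y
  · have hhY : h ≤ Y := by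
      have : (h : ℝ) ≤ Y := hh1.trans hHY
      exact_mod_cast this
    obtain ⟨a1, a2⟩ := hn1 h (by omega) (by omega)
    have hTh : T ≤ h + 1 := by
      have : (T : ℝ) ≤ h + 1 := by linarith
      exact_mod_cast this
    obtain ⟨b1, b2⟩ := hn2 (h + 1) hTh (by omega)
    have e1 : c' / 2 * H / l ≤ c' / L * h := by
      have h1 : c' / 2 * H ≤ c' * h := by nlinarith
      calc c' / 2 * H / l ≤ c' * h / l := by gcongr
        _ ≤ c' * h / L := by gcongr
        _ = c' / L * h := by ring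
    have e2 : lam / L * ((h + 1 : ℕ) : ℝ) ≤ 4 * lam * H / l := by
      rw [div_mul_eq_mul_div, div_le_div_iff₀ hL0 hl0]
      have : ((h + 1 : ℕ) : ℝ) ≤ 2 * H := by push_cast; linarith
      calc lam * ((h + 1 : ℕ) : ℝ) * l ≤ lam * (2 * H) * (2 * L) := by gcongr
        _ = 4 * lam * H * L := by ring
    refine ⟨lo _ (Or.inl ?_), lo _ (Or.inl ?_), up _ (Or.inl ?_), up _ (Or.inl ?_)⟩
    · refine (e1.trans a1).trans ?_
      exact_mod_cast cnt_mono Pz le_rfl (by omega)
    · refine (e1.trans a2).trans ?_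
      have h7 := cnt_mono Pz (a := (p : ℤ) + 1 - h) (b := (p : ℤ) + 1) (a' := (p : ℤ) - h)
        (b' := (p : ℤ) + 1) (by omega) le_rfl
      exact Nat.cast_le.2 h7
    · refine le_trans (le_of_eq ?_) (b1.trans e2)
      congr 2
    · refine le_trans (le_of_eq ?_) (b2.trans e2)
      congr 2
      push_cast
      ring
  · push Not at hHY
    set m := ⌊H / 2⌋₊ with hm
    have hm1 : (m : ℝ) ≤ H / 2 := Nat.floor_le (by linarith)
    have hm2 : H / 2 < m + 1 := Nat.lt_floor_add_one _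
    have hm3 : H / 4 ≤ m := by linarith
    have hmh : m ≤ h := by
      have : (m : ℝ) < h + 1 := by linarith
      have : m < h + 1 := by exact_mod_cast this
      omega
    have hmp : 2 * m ≤ p := by
      have : (2 : ℝ) * m ≤ p := by linarith
      exact_mod_cast this
    have hpθ : (p : ℝ) ^ θ₀ ≤ m ∨ θ₀ > 1 := by
      by_cases hθ1 : θ₀ ≤ 1
      · left
        calc (p : ℝ) ^ θ₀ ≤ (2 * X : ℝ) ^ θ₀ := Real.rpow_le_rpow (by linarith) hp2X hθ0.le
          _ = 2 ^ θ₀ * (X : ℝ) ^ θ₀ := Real.mul_rpow (by norm_num) hX0.le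
          _ ≤ 2 ^ (1 : ℝ) * (X : ℝ) ^ θ₀ := by
              apply mul_le_mul_of_nonneg_right _ (Real.rpow_nonneg hX0.le _)
              exact Real.rpow_le_rpow_of_exponent_le (by norm_num) hθ1
          _ = 2 * (X : ℝ) ^ θ₀ := by rw [Real.rpow_one]
          _ ≤ m := by linarith
      · right; linarith
    have hpθ' : (p : ℝ) ^ θ₀ ≤ m := by
      rcases hpθ with h1 | h1
      · exact h1
      · exfalso
        have h2 : (X : ℝ) ≤ (X : ℝ) ^ θ₀ := by
          calc (X : ℝ) = (X : ℝ) ^ (1 : ℝ) := (Real.rpow_one _).symm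
            _ ≤ _ := Real.rpow_le_rpow_of_exponent_le (by linarith) h1.le
        have h3 : (Y : ℝ) ≤ X := by exact_mod_cast hYX
        linarith
    have hS1 := hS p m (by omega) hpθ' (by omega)
    have hpm : ((p - m : ℕ) : ℝ) ≤ p := by exact_mod_cast Nat.sub_le _ _
    have hpm2 : (2 : ℝ) ≤ ((p - m : ℕ) : ℝ) := by exact_mod_cast (by omega : 2 ≤ p - m)
    have hS2 := hS (p - m) m (by omega)
      ((Real.rpow_le_rpow (by linarith) hpm hθ0.le).trans hpθ') (by omega)
    have e1 : (((Finset.Ioc p (p + m)).filter Nat.Prime).card : ℝ) ≤ cnt Pz p ((p : ℤ) + h + 1) := by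
      have := cnt_Pz p m
      unfold pc at this
      rw [← this]
      exact_mod_cast cnt_mono Pz (by omega) (by omega)
    have e2 : (((Finset.Ioc (p - m) (p - m + m)).filter Nat.Prime).card : ℝ) ≤
        cnt Pz ((p : ℤ) - h) ((p : ℤ) + 1) := by
      have := cnt_Pz (p - m) m
      unfold pc at this
      rw [← this]
      exact_mod_cast cnt_mono Pz (by omega) (by omega)
    have e3 : cS / 4 * H / l ≤ cS * m / l := by
      apply div_le_div_of_nonneg_right _ hl0.le
      nlinarith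
    have e4 : cS * m / l ≤ cS * m / Real.log ((p - m : ℕ) : ℝ) := by
      apply div_le_div_of_nonneg_left (by positivity) (Real.log_pos (by linarith))
      exact Real.log_le_log (by linarith) hpm
    have hbig : Y₀ ≤ h + 1 := by
      have : (Y : ℝ) < h + 1 := by linarith
      have : Y < h + 1 := by exact_mod_cast this
      omega
    have hYpos : (0 : ℝ) < Y := by exact_mod_cast (by omega : 0 < Y)
    have e5 : 3 * ((h + 1 : ℕ) : ℝ) / Real.log ((h + 1 : ℕ) : ℝ) ≤ 12 / θ * H / l := by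
      have h1 : Real.log Y ≤ Real.log ((h + 1 : ℕ) : ℝ) := by
        apply Real.log_le_log hYpos
        push_cast
        linarith
      have h2 : θ * l ≤ 2 * Real.log Y := by
        have h3 : θ * L ≤ Real.log Y := by
          calc θ * L ≤ θ * (θ⁻¹ * Real.log Y) := by gcongr
            _ = Real.log Y := by field_simp
        nlinarith
      have h4 : 0 < θ * l := by positivity
      have h5 : 0 < Real.log ((h + 1 : ℕ) : ℝ) := by linarith
      rw [div_mul_eq_mul_div, div_div, div_le_div_iff₀ h5 h4]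
      have h6 : ((h + 1 : ℕ) : ℝ) ≤ 2 * H := by push_cast; linarith
      have h7 : θ * l ≤ 2 * Real.log ((h + 1 : ℕ) : ℝ) := by linarith
      have h8 : 3 * ((h + 1 : ℕ) : ℝ) ≤ 3 * (2 * H) := by linarith
      calc 3 * ((h + 1 : ℕ) : ℝ) * (θ * l) ≤ 3 * (2 * H) * (2 * Real.log ((h + 1 : ℕ) : ℝ)) :=
            mul_le_mul h8 h7 h4.le (by positivity)
        _ = 12 * H * Real.log ((h + 1 : ℕ) : ℝ) := by ring
    refine ⟨lo _ (Or.inr ?_), lo _ (Or.inr ?_), up _ (Or.inr ?_), up _ (Or.inr ?_)⟩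
    · exact (e3.trans hS1).trans e1
    · exact (e3.trans (e4.trans hS2)).trans e2
    · refine le_trans ?_ ((hbt p (h + 1) hbig).trans e5)
      apply le_of_eq
      congr 2
    · refine le_trans ?_ ((hbt ((p : ℤ) - h) (h + 1) hbig).trans e5)
      apply le_of_eq
      congr 2
      push_cast
      ring

end Pool.Agent.Q273.CI
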