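import Mathlib
import Pool.Agent.Q273.CI.Loc
import Pool.Agent.Q273.CH.Exc4

/-!
# Primes whose neighbourhoods at all scales contain the right order of primes, in short intervals
-/

set_option autoImplicit false

namespace Pool.Agent.Q273.CI

open Finset Filter Topology
open Pool.Agent.H357R2.SI (pc)

open Classical in
/-- **local count** -/
theorem local_good : ∃ θ c c₁ c₂ : ℝ, 0 < θ ∧ θ < 1 ∧ 0 < c ∧ 0 < c₁ ∧ 0 < c₂ ∧
    ∀ᶠ X : ℕ in atTop, ∀ Y : ℕ, (X : ℝ) ^ θ ≤ Y → Y ≤ X →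
      c * Y / Real.log X ≤ (((Finset.Ioc X (X + Y)).filter (AllScales c₁ c₂)).card : ℝ) := by
  obtain ⟨θ₀, h0, h1, cS, hcS, X₀, hX₀2, hS⟩ := Pool.Agent.H932R4.MO.exists_short
  obtain ⟨Y₀, hY₀, hbt⟩ := bt_int
  set θ : ℝ := (θ₀ + 1) / 2 with hθ
  have hθ0 : 0 < θ := by rw [hθ]; linarith
  have hθ1 : θ < 1 := by rw [hθ]; linarith
  have hθθ : 0 < θ - θ₀ := by rw [hθ]; linarith
  obtain ⟨C, hC1, u0, hmom⟩ := Pool.Agent.W123.LR.second_moment_local θ hθ0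
  set κ : ℝ := cS / 16 with hκ
  set c' : ℝ := cS / 48 with hc'
  set lam : ℝ := 1152 * C / (θ * κ ^ 2) with hlam
  have hκ0 : 0 < κ := by rw [hκ]; positivity
  have hc'0 : 0 < c' := by rw [hc']; positivity
  have hlam0 : 0 < lam := by rw [hlam]; positivity
  refine ⟨θ, cS / 2, min (c' / 2) (cS / 4), max (4 * lam) (12 / θ), hθ0, hθ1, by positivity,
    lt_min (by positivity) (by positivity), lt_max_of_lt_left (by positivity), ?_⟩
  have hXr : Tendsto (fun X : ℕ => (X : ℝ)) atTop atTop := tendsto_natCast_atTop_atTop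
  have hlogX : Tendsto (fun X : ℕ => Real.log (X : ℝ)) atTop atTop :=
    Real.tendsto_log_atTop.comp hXr
  have hlogpow : ∀ᶠ X : ℕ in atTop, 4 * Real.log X ≤ (X : ℝ) ^ θ := by
    have h := hXr.eventually (Pool.Agent.Q273.CH.ev_log 4 θ hθ0)
    exact h
  filter_upwards [hlogX.eventually_ge_atTop 8, eventually_ge_atTop (2 * X₀ + 40), hlogpow,
    hXr.eventually (Pool.Agent.Q273.CH.ev_pow (Y₀ + u0 + 4 : ℝ) θ hθ0),
    hXr.eventually (Pool.Agent.Q273.CH.ev_pow 16 (θ - θ₀) hθθ)] with X hL8 hX40 hlogX4 hYbig hpow Y hYX hYle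
  set L := Real.log (X : ℝ) with hL
  have hX40r : (40 : ℝ) ≤ X := by exact_mod_cast (by omega : 40 ≤ X)
  have hX0 : (0 : ℝ) < X := by linarith
  have hL0 : 0 < L := by linarith
  have hY4 : (Y₀ : ℝ) + u0 + 4 ≤ Y := hYbig.trans hYX
  have hY4n : Y₀ + u0 + 4 ≤ Y := by exact_mod_cast hY4
  have hYr : (4 : ℝ) ≤ Y := by
    have h2 : (0 : ℝ) ≤ Y₀ := Nat.cast_nonneg _
    have h3 : (0 : ℝ) ≤ u0 := Nat.cast_nonneg _
    linarith
  have hY0 : (0 : ℝ) < Y := by linarith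
  have hYXr : (Y : ℝ) ≤ X := by exact_mod_cast hYle
  have hlogY : θ * L ≤ Real.log Y := by
    calc θ * L = Real.log ((X : ℝ) ^ θ) := by rw [Real.log_rpow hX0]
      _ ≤ Real.log Y := Real.log_le_log (Real.rpow_pos_of_pos hX0 _) hYX
  have h4LY : 4 * L ≤ Y := hlogX4.trans hYX
  -- the length of the smallest windows
  obtain ⟨T, hT1, hT2, hT3⟩ : ∃ T : ℕ, 1 ≤ T ∧ (T : ℝ) ≤ L / 2 ∧ L / 4 ≤ T := by
    refine ⟨⌊L / 2⌋₊, Nat.le_floor (by push_cast; linarith), Nat.floor_le (by linarith), ?_⟩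
    have := Nat.lt_floor_add_one (L / 2)
    linarith
  have hT1r : (1 : ℝ) ≤ T := by exact_mod_cast hT1
  have hTY : 8 * T ≤ Y := by
    have : (8 : ℝ) * T ≤ Y := by linarith
    exact_mod_cast this
  set μ : ℝ := lam / L with hμ
  have hμ0 : 0 < μ := by rw [hμ]; positivity
  set M : ℝ := κ * Y / L with hM
  have hM0 : 0 ≤ M := by rw [hM]; positivity
  have hc0 : 0 < c' / L := by positivity
  -- the length of the long window
  set m₀ : ℕ := 5 * Y + 2 * T with hm₀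
  have hm1 : (Y : ℝ) ≤ m₀ := by exact_mod_cast (by omega : Y ≤ m₀)
  have hm2 : (m₀ : ℝ) ≤ 6 * Y := by exact_mod_cast (by omega : m₀ ≤ 6 * Y)
  have hC0 : (cnt Pz ((X : ℤ) + 1 - ((2 * Y : ℕ) : ℤ) - (T : ℤ))
      ((X : ℤ) + 1 + (Y : ℤ) + ((2 * Y : ℕ) : ℤ) + (T : ℤ)) : ℝ) ≤ 18 * Y / (θ * L) := by
    have e1 : (X : ℤ) + 1 + (Y : ℤ) + ((2 * Y : ℕ) : ℤ) + (T : ℤ) =
        ((X : ℤ) + 1 - ((2 * Y : ℕ) : ℤ) - (T : ℤ)) + ((m₀ : ℕ) : ℤ) := by
      rw [hm₀]; push_cast; ring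
    rw [e1]
    refine (hbt _ m₀ (by omega)).trans ?_
    have h2 : θ * L ≤ Real.log m₀ := hlogY.trans (Real.log_le_log hY0 hm1)
    have h3 : 0 < θ * L := by positivity
    rw [div_le_div_iff₀ (by linarith) h3]
    calc 3 * (m₀ : ℝ) * (θ * L) ≤ 3 * (6 * Y) * Real.log m₀ :=
          mul_le_mul (by linarith) h2 h3.le (by positivity)
      _ = 18 * Y * Real.log m₀ := by ring
  have hS2 : ∑ n ∈ Finset.Ico ((X : ℤ) + 1 - (T : ℤ)) ((X : ℤ) + 1 + (Y : ℤ) + 1),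
      ((cnt Pz n (n + T) : ℕ) : ℝ) ^ 2 ≤ 2 * C * Y := by
    have hTX : T + 2 ≤ X := by omega
    have h2 := hmom (X - T - 1) (Y + T + 1) T (by omega) (by
      have h3 : ((X - T - 1 : ℕ) : ℝ) ≤ X := by exact_mod_cast (by omega : X - T - 1 ≤ X)
      calc ((X - T - 1 : ℕ) : ℝ) ^ θ ≤ (X : ℝ) ^ θ := Real.rpow_le_rpow (Nat.cast_nonneg _) h3 hθ0.le
        _ ≤ Y := hYX
        _ ≤ ((Y + T + 1 : ℕ) : ℝ) := by exact_mod_cast (by omega : Y ≤ Y + T + 1)) (by omega) (by omega) (by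
      have h3 : L / 2 = Real.log (Real.sqrt X) := by
        rw [Real.log_sqrt hX0.le]
      have h4 : Real.sqrt X ≤ ((X - T - 1 : ℕ) : ℝ) := by
        have h5 : (T : ℝ) ≤ X / 8 := by
          have : (8 : ℝ) * T ≤ Y := by exact_mod_cast hTY
          linarith
        have h6 : ((X - T - 1 : ℕ) : ℝ) = X - T - 1 := by
          rw [Nat.cast_sub (by omega), Nat.cast_sub (by omega)]
          simp
        rw [h6]
        have h7 : Real.sqrt X ≤ X / 2 := by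
          rw [Real.sqrt_le_left (by linarith)]
          nlinarith
        linarith
      calc (T : ℝ) ≤ L / 2 := hT2
        _ = Real.log (Real.sqrt X) := h3
        _ ≤ _ := Real.log_le_log (Real.sqrt_pos.2 hX0) h4)
    have e1 : ∑ n ∈ Finset.Ico ((X : ℤ) + 1 - (T : ℤ)) ((X : ℤ) + 1 + (Y : ℤ) + 1),
        ((cnt Pz n (n + T) : ℕ) : ℝ) ^ 2 =
        ∑ n ∈ Finset.Ico (X - T - 1 + 1) (X - T - 1 + 1 + (Y + T + 1)), ((pc n (n + T) : ℕ) : ℝ) ^ 2 := by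
      apply sum_bij (fun n _ => (n - 1).toNat)
      · intro n hn
        rw [mem_Ico] at hn ⊢
        omega
      · intro n hn m hm h
        rw [mem_Ico] at hn hm
        omega
      · intro k hk
        rw [mem_Ico] at hk
        exact ⟨(k : ℤ) + 1, by rw [mem_Ico]; omega, by omega⟩
      · intro n hn
        rw [mem_Ico] at hn
        have h3 : n = (((n - 1).toNat : ℕ) : ℤ) + 1 := by omega
        rw [← cnt_Pz]
        rw [← h3]
    rw [e1]
    refine h2.trans ?_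
    have h3 : ((Y + T + 1 : ℕ) : ℝ) ≤ 2 * Y := by exact_mod_cast (by omega : Y + T + 1 ≤ 2 * Y)
    calc C * ((Y + T + 1 : ℕ) : ℝ) ≤ C * (2 * Y) := by gcongr
      _ = 2 * C * Y := by ring
  have hCS : 18 * Y / (θ * L) * (2 * C * Y) ≤ (T * M) ^ 2 * (μ / 2) := by
    have h2 : κ * Y / 4 ≤ T * M := by
      calc κ * Y / 4 = L / 4 * (κ * Y / L) := by field_simp
        _ ≤ T * M := by rw [hM]; gcongr
    have h3 : (κ * Y / 4) ^ 2 ≤ (T * M) ^ 2 := by gcongr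
    calc 18 * Y / (θ * L) * (2 * C * Y) = (κ * Y / 4) ^ 2 * (μ / 2) := by
          rw [hμ, hlam]
          field_simp
          norm_num
      _ ≤ (T * M) ^ 2 * (μ / 2) := by gcongr
  have key := nice_elems Pz (c' / L) μ hc0 hμ0 T (2 * Y) hT1 ((X : ℤ) + 1) Y (18 * Y / (θ * L))
    (2 * C * Y) M hC0 hS2 hM0 hCS
  have hlow : cS * Y / L ≤ (cnt Pz ((X : ℤ) + 1) ((X : ℤ) + 1 + Y) : ℝ) := by
    rw [cnt_Pz]
    unfold pc
    refine hS X Y (by omega) (le_trans ?_ hYX) hYle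
    apply Real.rpow_le_rpow_of_exponent_le (by linarith)
    linarith
  have htr := nice_transfer X Y (Nice Pz (c' / L) μ T (2 * Y))
    (AllScales (min (c' / 2) (cS / 4)) (max (4 * lam) (12 / θ))) (fun p hp1 hp2 hn =>
      nice_good θ₀ θ cS c' lam X₀ Y₀ X Y T p h0 hθ0 hcS hc'0 hlam0 hS hbt hL8 (by omega) (by
        rw [inv_mul_eq_div, le_div_iff₀ hθ0]
        linarith) (by omega) (by
        have e1 : (X : ℝ) ^ θ = (X : ℝ) ^ (θ - θ₀) * (X : ℝ) ^ θ₀ := by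
          rw [← Real.rpow_add hX0]; congr 1; ring
        have hp : 0 ≤ (X : ℝ) ^ θ₀ := Real.rpow_nonneg hX0.le _
        nlinarith) hYle hT2 hp1 hp2 hn)
  have htr' : (cnt (Nice Pz (c' / L) μ T (2 * Y)) ((X : ℤ) + 1) ((X : ℤ) + 1 + Y) : ℝ) ≤
      (((Finset.Ioc X (X + Y)).filter (AllScales (min (c' / 2) (cS / 4)) (max (4 * lam) (12 / θ)))).card : ℝ) := by
    exact_mod_cast htr
  have h5 : 2 * (c' / L * ((Y : ℝ) + ((2 * Y : ℕ) : ℝ))) + 2 * M = cS * Y / L / 4 := by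
    rw [hM, hκ, hc']
    push_cast
    field_simp
    norm_num
  have h6 : 0 ≤ cS * Y / L := by positivity
  have h7 : cS / 2 * Y / L = cS * Y / L / 2 := by ring
  rw [h7]
  linarith

end Pool.Agent.Q273.CI
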