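import Mathlib
import Pool.Agent.Q273.CH.Exc6

/-!
# Properties with the frequency of the primes in all long windows, at every term
-/

set_option autoImplicit false

namespace Pool.Agent.Q273.CI

open Set Filter Topology MeasureTheory
open scoped ENNReal NNReal
open Pool.Agent.Q273.CH (wcnt XB XB_facts exc_dim)

open Classical in
/-- If all windows `(X, X + Y]`, `X ^ θ ≤ Y ≤ X`, contain at least `c Y / log X` integers with `P`,
then for `x_{n+1} ≥ x_n ^ C`, `θ < 1 - 1 / C`, the `α` for which all large `n` have `P ⌊α x_n⌋` form a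
set of dimension one. -/
theorem win_dim (P : ℕ → Prop) (θ c C : ℝ) (hθ0 : 0 < θ) (hc : 0 < c) (hC : 1 < C)
    (hCθ : θ < 1 - 1 / C)
    (hP : ∀ᶠ X : ℕ in atTop, ∀ Y : ℕ, (X : ℝ) ^ θ ≤ Y → Y ≤ X →
      c * Y / Real.log X ≤ (((Finset.Ioc X (X + Y)).filter P).card : ℝ))
    (x : ℕ → ℝ) (hx : ∀ n, 0 < x n) (hxt : Tendsto x atTop atTop)
    (hgrow : ∀ᶠ n in atTop, (x n) ^ C ≤ x (n + 1)) (u v : ℝ) (hu : 0 < u) (huv : u < v) :
    dimH {α : ℝ | u < α ∧ α < v ∧ ∀ᶠ n in atTop, P ⌊α * x n⌋₊} = 1 := by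
  have hC0 : 0 < C := by linarith
  have hiC : 0 < 1 / C := by positivity
  apply le_antisymm
  · calc dimH _ ≤ dimH (univ : Set ℝ) := dimH_mono (subset_univ _)
      _ = 1 := Real.dimH_univ
  · refine le_of_forall_lt fun s hs => ?_
    have hs1 : s ≠ ∞ := (hs.trans ENNReal.one_lt_top).ne
    lift s to ℝ≥0 using hs1
    have hs2 : s < 1 := by exact_mod_cast hs
    obtain ⟨s', hs3, hs4⟩ := exists_between hs2
    have hs'0 : 0 < s' := lt_of_le_of_lt bot_le hs3
    refine lt_of_lt_of_le (show (s : ℝ≥0∞) < (s' : ℝ≥0∞) by exact_mod_cast hs3) ?_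
    set h : ℝ := (θ + (1 - 1 / C)) / 2 with hh
    have h0 : 0 < h := by rw [hh]; linarith
    have h1 : h < 1 - 1 / C := by rw [hh]; linarith
    have h2 : θ < h := by rw [hh]; linarith
    have h3 : h < 1 := by linarith
    have key := exc_dim C h h (c / 2) hC h0 h1 (by linarith) h0.le h3 u v hu huv
      x hx hxt hgrow (fun _ n => P n) ?_ s' hs'0 hs4
    · refine key.trans ?_
      have hsub : {α : ℝ | u ≤ α ∧ α ≤ v ∧ ∀ᶠ n in atTop, ∃ m : ℕ, P m ∧
          (m : ℝ) ≤ α * x n ∧ α * x n ≤ m + 1 / 2} ⊆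
          {α : ℝ | u < α ∧ α < v ∧ ∀ᶠ n in atTop, P ⌊α * x n⌋₊} ∪ {u, v} := by
        rintro α ⟨g1, g2, g3⟩
        by_cases hα : α = u ∨ α = v
        · right
          rcases hα with rfl | rfl <;> simp
        · left
          push Not at hα
          refine ⟨lt_of_le_of_ne g1 (Ne.symm hα.1), lt_of_le_of_ne g2 hα.2, ?_⟩
          filter_upwards [g3] with n hn1
          obtain ⟨m, m1, m3, m4⟩ := hn1
          have hfl : ⌊α * x n⌋₊ = m := by
            rw [Nat.floor_eq_iff ((Nat.cast_nonneg m).trans m3)]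
            exact ⟨m3, by linarith⟩
          rw [hfl]
          exact m1
      refine (dimH_mono hsub).trans ?_
      rw [dimH_union, (Set.toFinite {u, v}).dimH_zero]
      simp
    · obtain ⟨N0, hN0⟩ := eventually_atTop.1 hP
      have hXr : Tendsto (fun X : ℕ => (X : ℝ)) atTop atTop := tendsto_natCast_atTop_atTop
      filter_upwards [hXr.eventually ((tendsto_rpow_atTop h0).eventually_ge_atTop (N0 + 2 : ℝ)),
        hXr.eventually ((tendsto_rpow_atTop (show 0 < h - θ by linarith)).eventually_ge_atTop 2),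
        eventually_ge_atTop 3] with X hX1 hX2 hX3
      have hX3r : (3 : ℝ) ≤ X := by exact_mod_cast hX3
      have hX0 : (0 : ℝ) < X := by linarith
      set Y : ℕ := ⌊(X : ℝ) ^ h⌋₊ with hY
      have hXh0 : 0 ≤ (X : ℝ) ^ h := Real.rpow_nonneg hX0.le _
      have hYle : (Y : ℝ) ≤ (X : ℝ) ^ h := Nat.floor_le hXh0
      have hYge : (X : ℝ) ^ h / 2 ≤ Y := by
        have := Nat.lt_floor_add_one ((X : ℝ) ^ h)
        rw [← hY] at this
        linarith
      have hθY : (X : ℝ) ^ θ ≤ Y := by
        have e1 : (X : ℝ) ^ h = (X : ℝ) ^ (h - θ) * (X : ℝ) ^ θ := by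
          rw [← Real.rpow_add hX0]; congr 1; ring
        have hp : 0 ≤ (X : ℝ) ^ θ := Real.rpow_nonneg hX0.le _
        nlinarith
      have hlX : 0 < Real.log X := Real.log_pos (by linarith)
      have hsub : ((Finset.Icc 1 X).filter fun N =>
          (wcnt P N Y : ℝ) < c / 2 * (X : ℝ) ^ h / Real.log X) ⊆ Finset.Icc 1 Y := by
        intro N hN
        rw [Finset.mem_filter, Finset.mem_Icc] at hN
        rw [Finset.mem_Icc]
        refine ⟨hN.1.1, ?_⟩
        by_contra hlt
        push Not at hlt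
        have hN1 : N0 ≤ N := by
          have h5 : (N0 : ℝ) ≤ Y := by
            have := Nat.lt_floor_add_one ((X : ℝ) ^ h)
            rw [← hY] at this
            linarith
          have : N0 ≤ Y := by exact_mod_cast h5
          omega
        have hN2 : (N : ℝ) ≤ X := by exact_mod_cast hN.1.2
        have hN3 : (3 : ℝ) ≤ N ∨ True := Or.inr trivial
        have hNpos : (0 : ℝ) < N := by exact_mod_cast (by omega : 0 < N)
        have hN4 : 1 < (N : ℝ) := by
          have h5 : (2 : ℝ) ≤ Y := by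
            have := Nat.lt_floor_add_one ((X : ℝ) ^ h)
            rw [← hY] at this
            have h6 : (0 : ℝ) ≤ N0 := Nat.cast_nonneg _
            have h7 : (1 : ℝ) < Y := by linarith
            have : 1 < Y := by exact_mod_cast h7
            exact_mod_cast this
          have h6 : (Y : ℝ) < N := by exact_mod_cast hlt
          linarith
        have hlN : 0 < Real.log N := Real.log_pos hN4
        have h4 := hN0 N hN1 Y ((Real.rpow_le_rpow hNpos.le hN2 hθ0.le).trans hθY) hlt.le
        have h5 : c / 2 * (X : ℝ) ^ h / Real.log X ≤ c * Y / Real.log N := by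
          rw [div_le_div_iff₀ hlX hlN]
          have h6 : Real.log N ≤ Real.log X := Real.log_le_log hNpos hN2
          have h7 : c / 2 * (X : ℝ) ^ h ≤ c * Y := by nlinarith
          have h8 : 0 ≤ c * (Y : ℝ) := by positivity
          calc c / 2 * (X : ℝ) ^ h * Real.log N ≤ c * Y * Real.log N := by gcongr
            _ ≤ c * Y * Real.log X := by gcongr
        have h9 : (wcnt P N Y : ℝ) = (((Finset.Ioc N (N + Y)).filter P).card : ℝ) := rfl
        rw [← h9] at h4
        linarith [hN.2]
      have h4 := Finset.card_le_card hsub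
      rw [Nat.card_Icc] at h4
      have h5 : ((((Finset.Icc 1 X).filter fun N =>
          (wcnt P N Y : ℝ) < c / 2 * (X : ℝ) ^ h / Real.log X).card : ℕ) : ℝ) ≤ Y := by
        exact_mod_cast (by omega : ((Finset.Icc 1 X).filter fun N =>
          (wcnt P N Y : ℝ) < c / 2 * (X : ℝ) ^ h / Real.log X).card ≤ Y)
      exact h5.trans hYle

end Pool.Agent.Q273.CI
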