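import Mathlib
import Pool.Agent.Q273.CI.Loc2
import Pool.Agent.Q273.CI.Win

/-!
# Primes in all short intervals around every term
-/

set_option autoImplicit false

namespace Pool.Agent.Q273.CI

open Filter Topology

theorem every_term_all_scales : ∃ C c₁ c₂ : ℝ, 1 < C ∧ 0 < c₁ ∧ 0 < c₂ ∧
    ∀ x : ℕ → ℝ, (∀ n, 0 < x n) → Tendsto x atTop atTop →
      (∀ᶠ n in atTop, (x n) ^ C ≤ x (n + 1)) → ∀ u v : ℝ, 0 < u → u < v →
        dimH {α : ℝ | u < α ∧ α < v ∧ ∀ᶠ n in atTop, AllScales c₁ c₂ ⌊α * x n⌋₊} = 1 := by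
  obtain ⟨θ, c, c₁, c₂, h0, h1, hc, hc1, hc2, h⟩ := local_good
  have h1θ : 0 < 1 - θ := by linarith
  refine ⟨2 / (1 - θ), c₁, c₂, ?_, hc1, hc2, fun x hx hxt hg u v hu huv => ?_⟩
  · rw [lt_div_iff₀ h1θ]; linarith
  · refine win_dim (AllScales c₁ c₂) θ c (2 / (1 - θ)) h0 hc ?_ ?_ h x hx hxt hg u v hu huv
    · rw [lt_div_iff₀ h1θ]; linarith
    · rw [one_div, inv_div]; linarith

end Pool.Agent.Q273.CI
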