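import Mathlib
import Pool.Agent.TH464.PO.PolyExact
import Pool.Agent.Q273.CI.ExA6

/-!
# Rough values of systems of polynomials: many elements of every window have exact windows
-/

set_option autoImplicit false

namespace Pool.Agent.Q273.CI

open Polynomial Finset Filter
open Pool.Agent.W123.RP Pool.Agent.H373R2.T7 Pool.Agent.W123.RU Pool.Agent.W123.RU.Poly
open Pool.Agent.TH464.PW Pool.Agent.TH464.PO

variable {ι : Type} [Fintype ι]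

open Classical in
/-- the exact windows theorem, for windows at arbitrary places -/
theorem sys_windows [Nonempty ι] (f : ι → ℤ[X]) (hf : Sys f) (hT : NoTr f) (θ : ℝ) (hθ : 0 < θ)
    (ε : ℝ) (hε : 0 < ε) :
    ∃ (K : ℝ) (r0 : ℕ), 0 < K ∧ ∀ r : ℕ, r0 ≤ r → ∀ᶠ X : ℕ in atTop, ∀ Y Z : ℕ, (X : ℝ) ^ θ ≤ Y → Y ≤ Z →
      (((Ioc Z (Z + Y)).filter (fun n => ¬ Exact (Sf (Q f) ⌊(X : ℝ) ^ (1 / (r : ℝ))⌋₊)
        (Vq (Q f) ⌊(X : ℝ) ^ (1 / (r : ℝ))⌋₊) K ε Z Y n)).card : ℝ) ≤ ε * Y ∧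
      (((Ioc Z (Z + Y)).filter (fun n => Sf (Q f) ⌊(X : ℝ) ^ (1 / (r : ℝ))⌋₊ n ∧
        ¬ Exact (Sf (Q f) ⌊(X : ℝ) ^ (1 / (r : ℝ))⌋₊)
        (Vq (Q f) ⌊(X : ℝ) ^ (1 / (r : ℝ))⌋₊) K ε Z Y n)).card : ℝ) ≤
          ε * (Y * Vq (Q f) ⌊(X : ℝ) ^ (1 / (r : ℝ))⌋₊) := by
  obtain ⟨c, hc, hQ⟩ := exists_c f hf
  obtain ⟨K0, y0, T0, η', κ, x1, K, hη', hκ, hx1, hK, hex⟩ := gen_exact c hc ε hε
  obtain ⟨T2, hT2⟩ : ∃ T2 : ℕ, 1 / κ ^ 2 ≤ T2 := exists_nat_ge _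
  obtain ⟨r0, h0⟩ := poly_sizes f hf hT θ hθ K0 y0 (T0 + T2 + 1) 5 η' x1 (2 * x1) hη' (by linarith)
    (by linarith)
  refine ⟨K, r0, hK, ?_⟩
  intro r hr
  filter_upwards [h0 r hr] with X hX
  intro Y Z hXY hYZ
  obtain ⟨y, hy⟩ : ∃ y, y = ⌊(X : ℝ) ^ (1 / (r : ℝ))⌋₊ := ⟨_, rfl⟩
  obtain ⟨a1, a2, a3⟩ := hX Y hXY y hy
  rw [← hy]
  refine hex (Q f) Z Y y a1 a2 hQ (fun p hp => Poly.adm f hf p hp) (Vq_le_one _ _) ?_
  intro T h1 h2
  obtain ⟨b1, b2, b3⟩ := a3 T h1 h2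
  have hT1 : 1 ≤ T := by omega
  have hTr1 : (1 : ℝ) ≤ T := by exact_mod_cast hT1
  have hTY : T ≤ Y := by
    calc T = T ^ 1 := (pow_one T).symm
      _ ≤ T ^ 5 := Nat.pow_le_pow_right hT1 (by norm_num)
      _ ≤ Y := b2
  refine ⟨by omega, hTY.trans hYZ, hTY, ?_, b3⟩
  have hκT : 1 ≤ T * κ ^ 2 := by
    have : 1 / κ ^ 2 ≤ T := hT2.trans (by exact_mod_cast (by omega : T2 ≤ T))
    rwa [div_le_iff₀ (by positivity)] at this
  have h3 : ((T : ℝ) ^ 2 / κ) ^ 2 ≤ Y := by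
    have h4 : ((T : ℝ) ^ 2 / κ) ^ 2 ≤ (T : ℝ) ^ 5 := by
      rw [div_pow, div_le_iff₀ (by positivity)]
      calc ((T : ℝ) ^ 2) ^ 2 = T ^ 4 * 1 := by ring
        _ ≤ T ^ 4 * (T * κ ^ 2) := by gcongr
        _ = (T : ℝ) ^ 5 * κ ^ 2 := by ring
    refine h4.trans ?_
    exact_mod_cast b2
  have h5 : (T : ℝ) ^ 2 / κ ≤ √(Y : ℝ) := Real.le_sqrt_of_sq_le h3
  rw [div_le_iff₀ hκ] at h5
  linarith

/-- all windows around `m` of length at most `L` and at least `K / V` have the density `V` up to `ε` -/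
def ExactIn (g : ℕ → Prop) (V K ε L : ℝ) (m : ℕ) : Prop :=
  ∀ s t : ℕ, s < m → m ≤ t → (t : ℝ) - s ≤ L → K ≤ ((t : ℝ) - s) * V →
    |(Cc g s t : ℝ) - (t - s) * V| ≤ ε * ((t - s) * V)

open Classical in
/-- every window contains many elements with exact windows -/
theorem sys_count [Nonempty ι] (f : ι → ℤ[X]) (hf : Sys f) (hT : NoTr f) (θ : ℝ) (hθ : 0 < θ)
    (ε : ℝ) (hε : 0 < ε) :
    ∃ (K : ℝ) (r0 : ℕ), 0 < K ∧ ∀ r : ℕ, r0 ≤ r → ∀ᶠ X : ℕ in atTop, ∀ Y Z : ℕ, (X : ℝ) ^ θ ≤ Y → Y ≤ Z →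
      (Y * Vq (Q f) ⌊(X : ℝ) ^ (1 / (r : ℝ))⌋₊) / 16 ≤
      (((Ioc Z (Z + Y)).filter (fun n => Sf (Q f) ⌊(X : ℝ) ^ (1 / (r : ℝ))⌋₊ n ∧
        ExactIn (Sf (Q f) ⌊(X : ℝ) ^ (1 / (r : ℝ))⌋₊)
        (Vq (Q f) ⌊(X : ℝ) ^ (1 / (r : ℝ))⌋₊) K ε (Y / 8) n)).card : ℝ) := by
  set ε' : ℝ := min ε (1 / 32) with hε'
  have hε'0 : 0 < ε' := lt_min hε (by norm_num)
  have hε'1 : ε' ≤ 1 / 32 := min_le_right _ _
  have hε'2 : ε' ≤ ε := min_le_left _ _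
  obtain ⟨K, r0, hK, h⟩ := sys_windows f hf hT θ hθ ε' hε'0
  obtain ⟨v0, Cv, hv0, hCv, hV⟩ := V_bounds f hf
  refine ⟨K, max r0 2, hK, ?_⟩
  intro r hr
  have hr0 : r0 ≤ r := (le_max_left _ _).trans hr
  have hr2 : 2 ≤ r := (le_max_right _ _).trans hr
  have hrpos : (0 : ℝ) < r := by exact_mod_cast (by omega : 0 < r)
  set k := Fintype.card ι with hk
  have hXr : Tendsto (fun X : ℕ => (X : ℝ)) atTop atTop := tendsto_natCast_atTop_atTop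
  filter_upwards [h r hr0, hXr.eventually (ev_logA (4 * K / v0) θ k hθ),
    hXr.eventually (Pool.Agent.Q273.CH.ev_pow 64 θ hθ), hXr.eventually (Pool.Agent.Q273.CH.ev_pow 3 (1 / (r : ℝ))
      (by positivity)), eventually_ge_atTop 16] with X hX hX2 hX3 hX4 hX16 Y Z hXY hYZ
  obtain ⟨y, hy⟩ : ∃ y, y = ⌊(X : ℝ) ^ (1 / (r : ℝ))⌋₊ := ⟨_, rfl⟩
  obtain ⟨h1, h2⟩ := hX Y Z hXY hYZ
  rw [← hy] at h1 h2 ⊢
  set V := Vq (Q f) y with hVdef
  have hX16r : (16 : ℝ) ≤ X := by exact_mod_cast hX16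
  have hX0 : (0 : ℝ) < X := by linarith
  have hY64 : (64 : ℝ) ≤ Y := hX3.trans hXY
  have hY64n : 64 ≤ Y := by exact_mod_cast hY64
  have hy3 : 3 ≤ y := by
    rw [hy]
    exact Nat.le_floor (by exact_mod_cast hX4)
  have hyX : (y : ℝ) ≤ X := by
    rw [hy]
    calc ((⌊(X : ℝ) ^ (1 / (r : ℝ))⌋₊ : ℕ) : ℝ) ≤ (X : ℝ) ^ (1 / (r : ℝ)) := Nat.floor_le (by positivity)
      _ ≤ (X : ℝ) ^ (1 : ℝ) := by
          apply Real.rpow_le_rpow_of_exponent_le (by linarith)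
          rw [div_le_one hrpos]
          exact_mod_cast (by omega : 1 ≤ r)
      _ = X := Real.rpow_one _
  have hlogy : 0 < Real.log y := Real.log_pos (by exact_mod_cast (by omega : 1 < y))
  have hlogyX : Real.log y ≤ Real.log X := Real.log_le_log (by exact_mod_cast (by omega : 0 < y)) hyX
  have hlogX : 0 < Real.log X := by linarith
  have hVlo := (hV y hy3).1
  rw [← hVdef] at hVlo
  have hVlo' : v0 / Real.log X ^ k ≤ V := by
    refine le_trans ?_ hVlo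
    gcongr
  have hV0 : 0 < V := lt_of_lt_of_le (by positivity) hVlo'
  -- the long window is long enough
  have hKY : 4 * K ≤ Y * V := by
    calc 4 * K = (4 * K / v0 * Real.log X ^ k) * (v0 / Real.log X ^ k) := by field_simp
      _ ≤ (X : ℝ) ^ θ * (v0 / Real.log X ^ k) := by gcongr
      _ ≤ Y * V := by gcongr
  set M1 := Z + Y / 4 with hM1
  set M2 := Z + (Y - Y / 4) with hM2
  have hM12 : (Y : ℝ) / 2 ≤ (M2 : ℝ) - M1 := by
    have h5 : Y ≤ 2 * (M2 - M1) := by omega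
    have h6 : (Y : ℝ) ≤ 2 * ((M2 - M1 : ℕ) : ℝ) := by exact_mod_cast h5
    rw [Nat.cast_sub (by omega)] at h6
    linarith
  -- an exact integer in the middle
  obtain ⟨n0, hn0a, hn0b, hn0⟩ : ∃ n0 : ℕ, M1 < n0 ∧ n0 ≤ M2 ∧ Exact (Sf (Q f) y) V K ε' Z Y n0 := by
    by_contra hne
    push Not at hne
    have hsub : Ioc M1 M2 ⊆ (Ioc Z (Z + Y)).filter (fun n => ¬ Exact (Sf (Q f) y) V K ε' Z Y n) := by
      intro n hn
      rw [mem_Ioc] at hn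
      rw [mem_filter, mem_Ioc]
      exact ⟨by omega, hne n hn.1 hn.2⟩
    have h5 := card_le_card hsub
    rw [Nat.card_Ioc] at h5
    have h6 : ((M2 - M1 : ℕ) : ℝ) ≤ ε' * Y := by
      refine le_trans ?_ h1
      exact_mod_cast h5
    rw [Nat.cast_sub (by omega)] at h6
    nlinarith
  have h3 := hn0 M1 M2 (by omega) hn0a hn0b (by omega) (by nlinarith)
  have h4 : (Y : ℝ) * V / 4 ≤ (Cc (Sf (Q f) y) M1 M2 : ℝ) := by
    have h5 := (abs_le.1 h3).1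
    have h6 : (Y : ℝ) / 2 * V ≤ ((M2 : ℝ) - M1) * V := by gcongr
    have h7 : 0 ≤ ((M2 : ℝ) - M1) * V := by
      have : 0 ≤ (Y : ℝ) / 2 * V := by positivity
      linarith
    nlinarith
  -- the elements with exact windows in the middle
  have hcov : Cc (Sf (Q f) y) M1 M2 ≤ ((Ioc Z (Z + Y)).filter (fun n => Sf (Q f) y n ∧
      ExactIn (Sf (Q f) y) V K ε (Y / 8) n)).card +
      ((Ioc Z (Z + Y)).filter (fun n => Sf (Q f) y n ∧ ¬ Exact (Sf (Q f) y) V K ε' Z Y n)).card := by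
    unfold Cc
    refine le_trans (card_le_card ?_) (card_union_le _ _)
    intro n hn
    rw [mem_filter, mem_Ioc] at hn
    obtain ⟨⟨g1, g2⟩, g3⟩ := hn
    rw [mem_union, mem_filter, mem_filter, mem_Ioc]
    by_cases hE : Exact (Sf (Q f) y) V K ε' Z Y n
    · left
      refine ⟨⟨by omega, by omega⟩, g3, ?_⟩
      intro s t hs ht hst hKs
      have hst' : 8 * t ≤ Y + 8 * s := by
        have : 8 * (t : ℝ) ≤ Y + 8 * s := by linarith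
        exact_mod_cast this
      have h5 := hE s t (by omega) hs ht (by omega) hKs
      refine h5.trans ?_
      have h6 : (s : ℝ) < t := by exact_mod_cast (by omega : s < t)
      have h7 : 0 ≤ ((t : ℝ) - s) * V := mul_nonneg (by linarith) hV0.le
      exact mul_le_mul_of_nonneg_right hε'2 h7
    · right
      exact ⟨⟨by omega, by omega⟩, g3, hE⟩
  have hcov' : (Cc (Sf (Q f) y) M1 M2 : ℝ) ≤ (((Ioc Z (Z + Y)).filter (fun n => Sf (Q f) y n ∧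
      ExactIn (Sf (Q f) y) V K ε (Y / 8) n)).card : ℝ) +
      (((Ioc Z (Z + Y)).filter (fun n => Sf (Q f) y n ∧ ¬ Exact (Sf (Q f) y) V K ε' Z Y n)).card : ℝ) := by
    exact_mod_cast hcov
  have h8 : ε' * (Y * V) ≤ 1 / 32 * (Y * V) := by
    apply mul_le_mul_of_nonneg_right hε'1
    positivity
  have h9 : 0 ≤ (Y : ℝ) * V := by positivity
  linarith

end Pool.Agent.Q273.CI
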