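import Mathlib
import Pool.Agent.Q273.CI.PolyW

/-!
# Rough values of systems of polynomials with exact windows, at every term
-/

set_option autoImplicit false

namespace Pool.Agent.Q273.CI

open Polynomial Finset Filter
open Pool.Agent.W123.RP Pool.Agent.H373R2.T7 Pool.Agent.W123.RU Pool.Agent.W123.RU.Poly
open Pool.Agent.TH464.PW Pool.Agent.TH464.PO
open scoped ENNReal NNReal
open Pool.Agent.Q273.CH (XB XB_facts wcnt ev_pow)

variable {ι : Type} [Fintype ι]

/-- the level of the sieve -/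
noncomputable def lev (r : ℕ) (x : ℝ) : ℕ := ⌊((⌊x⌋₊ : ℕ) : ℝ) ^ (1 / (r : ℝ))⌋₊

/-- no value at `m` has a prime factor up to the level, and the windows around `m` are exact -/
def GoodAt (f : ι → ℤ[X]) (K ε h : ℝ) (r : ℕ) (x : ℝ) (m : ℕ) : Prop :=
  Sf (Q f) (lev r x) m ∧ ExactIn (Sf (Q f) (lev r x)) (Vq (Q f) (lev r x)) K ε (x ^ h) m

open Classical in
theorem sys_dim [Nonempty ι] (f : ι → ℤ[X]) (hf : Sys f) (hT : NoTr f) (C h ε : ℝ) (hC : 1 < C)
    (hh : 0 < h) (hη : h < 1 - 1 / C) (hε : 0 < ε) :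
    ∃ (K : ℝ) (r0 : ℕ), 0 < K ∧ ∀ r : ℕ, r0 ≤ r → ∀ x : ℕ → ℝ, (∀ n, 0 < x n) →
      Tendsto x atTop atTop → (∀ᶠ n in atTop, (x n) ^ C ≤ x (n + 1)) → ∀ u v : ℝ, 0 < u → u < v →
      dimH {α : ℝ | u < α ∧ α < v ∧ ∀ᶠ n in atTop, GoodAt f K ε h r (x n) ⌊α * x n⌋₊} = 1 := by
  obtain ⟨K, r0, hK, H⟩ := sys_count f hf hT h hh ε hε
  obtain ⟨v0, Cv, hv0, hCv, hV⟩ := V_bounds f hf
  refine ⟨K, max r0 2, hK, ?_⟩
  intro r hr x hx hxt hgrow u v hu huv
  have hr0 : r0 ≤ r := (le_max_left _ _).trans hr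
  have hr2 : 2 ≤ r := (le_max_right _ _).trans hr
  have hrpos : (0 : ℝ) < r := by exact_mod_cast (by omega : 0 < r)
  have hv : 0 < v := by linarith
  set k := Fintype.card ι with hk
  apply le_antisymm
  · calc dimH _ ≤ dimH (Set.univ : Set ℝ) := dimH_mono (Set.subset_univ _)
      _ = 1 := Real.dimH_univ
  · refine le_of_forall_lt fun s hs => ?_
    have hs1 : s ≠ ∞ := (hs.trans ENNReal.one_lt_top).ne
    lift s to ℝ≥0 using hs1
    have hs2 : s < 1 := by exact_mod_cast hs
    obtain ⟨s', hs3, hs4⟩ := exists_between hs2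
    have hs'0 : 0 < s' := lt_of_le_of_lt bot_le hs3
    refine lt_of_lt_of_le (show (s : ℝ≥0∞) < (s' : ℝ≥0∞) by exact_mod_cast hs3) ?_
    have hiC : 0 < 1 / C := by
      have : 0 < C := by linarith
      positivity
    set h' : ℝ := (h + (1 - 1 / C)) / 2 with hh'
    have h0 : 0 < h' := by rw [hh']; linarith
    have h1 : h' < 1 - 1 / C := by rw [hh']; linarith
    have h2 : h < h' := by rw [hh']; linarith
    have h3 : h' < 1 := by linarith
    have key := exc_dimK k C h' h' (v0 / 32) hC h0 h1 (by positivity) h0.le h3 u v hu huv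
      x hx hxt hgrow (fun n m => GoodAt f K ε h r (x n) m) ?_ s' hs'0 hs4
    · refine key.trans ?_
      have hsub : {α : ℝ | u ≤ α ∧ α ≤ v ∧ ∀ᶠ n in atTop, ∃ m : ℕ, GoodAt f K ε h r (x n) m ∧
          (m : ℝ) ≤ α * x n ∧ α * x n ≤ m + 1 / 2} ⊆
          {α : ℝ | u < α ∧ α < v ∧ ∀ᶠ n in atTop, GoodAt f K ε h r (x n) ⌊α * x n⌋₊} ∪ {u, v} := by
        rintro α ⟨g1, g2, g3⟩
        by_cases hα : α = u ∨ α = v
        · right
          rcases hα with rfl | rfl <;> simp
        · left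
          push Not at hα
          refine ⟨lt_of_le_of_ne g1 (Ne.symm hα.1), lt_of_le_of_ne g2 hα.2, ?_⟩
          filter_upwards [g3] with n hn1
          obtain ⟨m, m1, m3, m4⟩ := hn1
          have hfl : ⌊α * x n⌋₊ = m := by
            rw [Nat.floor_eq_iff ((Nat.cast_nonneg m).trans m3)]
            exact ⟨m3, by linarith⟩
          rw [hfl]
          exact m1
      refine (dimH_mono hsub).trans ?_
      rw [dimH_union, (Set.toFinite {u, v}).dimH_zero]
      simp
    · have hfloor : Tendsto (fun n => ⌊x n⌋₊) atTop atTop := tendsto_nat_floor_atTop.comp hxt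
      have hfr : Tendsto (fun n => ((⌊x n⌋₊ : ℕ) : ℝ)) atTop atTop :=
        tendsto_natCast_atTop_atTop.comp hfloor
      filter_upwards [hfloor.eventually (H r hr0), hxt.eventually (XB_facts v hv),
        hxt.eventually (ev_pow 16 (h' - h) (by linarith)), hfr.eventually (ev_pow 3 (1 / (r : ℝ)) (by positivity)),
        hxt.eventually_ge_atTop 1] with n hn1 hn2 hn3 hn4 hn5
      obtain ⟨a1, a2, a3, a4, a5, a6⟩ := hn2
      obtain ⟨X, hX⟩ : ∃ X : ℕ, X = XB v (x n) := ⟨_, rfl⟩
      rw [← hX] at a2 a3 a4 a5 a6 ⊢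
      obtain ⟨z, hz⟩ : ∃ z : ℕ, z = ⌊x n⌋₊ := ⟨_, rfl⟩
      rw [← hz] at hn1 hn4
      have hzx : (z : ℝ) ≤ x n := by rw [hz]; exact Nat.floor_le (hx n).le
      have hx0 := hx n
      have hX0 : (0 : ℝ) < X := by linarith
      set Y : ℕ := ⌊(X : ℝ) ^ h'⌋₊ with hY
      have hXh0 : 0 ≤ (X : ℝ) ^ h' := Real.rpow_nonneg hX0.le _
      have hYle : (Y : ℝ) ≤ (X : ℝ) ^ h' := Nat.floor_le hXh0
      have hxh0 : 1 ≤ (x n) ^ h := Real.one_le_rpow hn5 hh.le
      have hXh : 16 * (x n) ^ h ≤ (X : ℝ) ^ h' := by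
        calc 16 * (x n) ^ h ≤ (x n) ^ (h' - h) * (x n) ^ h := by gcongr
          _ = (x n) ^ h' := by rw [← Real.rpow_add hx0]; congr 1; ring
          _ ≤ (X : ℝ) ^ h' := Real.rpow_le_rpow hx0.le a2 h0.le
      have hYge : (X : ℝ) ^ h' / 2 ≤ Y := by
        have := Nat.lt_floor_add_one ((X : ℝ) ^ h')
        rw [← hY] at this
        linarith
      have h8 : 8 * (x n) ^ h ≤ Y := by linarith
      have hzY : (z : ℝ) ^ h ≤ Y := by
        have : (z : ℝ) ^ h ≤ (x n) ^ h := Real.rpow_le_rpow (Nat.cast_nonneg _) hzx hh.le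
        linarith
      -- the level
      obtain ⟨y, hy⟩ : ∃ y : ℕ, y = lev r (x n) := ⟨_, rfl⟩
      have hy' : y = ⌊(z : ℝ) ^ (1 / (r : ℝ))⌋₊ := by rw [hy, hz]; rfl
      have hy3 : 3 ≤ y := by
        rw [hy']
        exact Nat.le_floor (by exact_mod_cast hn4)
      have hz1 : (1 : ℝ) ≤ z := by
        by_contra hlt
        push Not at hlt
        have : z < 1 := by exact_mod_cast hlt
        have hz0 : z = 0 := by omega
        rw [hz0] at hn4
        rw [Nat.cast_zero, Real.zero_rpow (by positivity)] at hn4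
        linarith
      have hyX : (y : ℝ) ≤ X := by
        rw [hy']
        calc ((⌊(z : ℝ) ^ (1 / (r : ℝ))⌋₊ : ℕ) : ℝ) ≤ (z : ℝ) ^ (1 / (r : ℝ)) := Nat.floor_le (by positivity)
          _ ≤ (z : ℝ) ^ (1 : ℝ) := by
              apply Real.rpow_le_rpow_of_exponent_le hz1
              rw [div_le_one hrpos]
              exact_mod_cast (by omega : 1 ≤ r)
          _ = z := Real.rpow_one _
          _ ≤ X := hzx.trans a2
      have hlogy : 0 < Real.log y := Real.log_pos (by exact_mod_cast (by omega : 1 < y))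
      have hlogyX : Real.log y ≤ Real.log X := Real.log_le_log (by exact_mod_cast (by omega : 0 < y)) hyX
      have hVlo := (hV y hy3).1
      have hVlo' : v0 / Real.log X ^ k ≤ Vq (Q f) y := by
        refine le_trans ?_ hVlo
        gcongr
      have hsub : ((Finset.Icc 1 X).filter fun N =>
          (wcnt (fun m => GoodAt f K ε h r (x n) m) N Y : ℝ) < v0 / 32 * (X : ℝ) ^ h' / Real.log X ^ k) ⊆
          Finset.Icc 1 Y := by
        intro N hN
        rw [Finset.mem_filter, Finset.mem_Icc] at hN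
        rw [Finset.mem_Icc]
        refine ⟨hN.1.1, ?_⟩
        by_contra hlt
        push Not at hlt
        have h4 := hn1 Y N hzY hlt.le
        rw [← hy'] at h4
        have h5 : ((Ioc N (N + Y)).filter (fun m => Sf (Q f) y m ∧
            ExactIn (Sf (Q f) y) (Vq (Q f) y) K ε (Y / 8) m)).card ≤
            wcnt (fun m => GoodAt f K ε h r (x n) m) N Y := by
          unfold wcnt
          apply card_le_card
          intro m hm
          rw [mem_filter] at hm ⊢
          refine ⟨hm.1, ?_⟩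
          unfold GoodAt
          rw [← hy]
          refine ⟨hm.2.1, fun s t hs ht hst hK' => hm.2.2 s t hs ht (by linarith) hK'⟩
        have h5' : (((Ioc N (N + Y)).filter (fun m => Sf (Q f) y m ∧
            ExactIn (Sf (Q f) y) (Vq (Q f) y) K ε (Y / 8) m)).card : ℝ) ≤
            wcnt (fun m => GoodAt f K ε h r (x n) m) N Y := by exact_mod_cast h5
        have h6 : v0 / 32 * (X : ℝ) ^ h' / Real.log X ^ k ≤ (Y * Vq (Q f) y) / 16 := by
          calc v0 / 32 * (X : ℝ) ^ h' / Real.log X ^ k = ((X : ℝ) ^ h' / 2) * (v0 / Real.log X ^ k) / 16 := by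
                ring
            _ ≤ (Y * Vq (Q f) y) / 16 := by
                gcongr
        linarith [hN.2]
      have h4 := Finset.card_le_card hsub
      rw [Nat.card_Icc] at h4
      have h5 : ((((Finset.Icc 1 X).filter fun N =>
          (wcnt (fun m => GoodAt f K ε h r (x n) m) N Y : ℝ) <
            v0 / 32 * (X : ℝ) ^ h' / Real.log X ^ k).card : ℕ) : ℝ) ≤ Y := by
        exact_mod_cast (by omega : ((Finset.Icc 1 X).filter fun N =>
          (wcnt (fun m => GoodAt f K ε h r (x n) m) N Y : ℝ) <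
            v0 / 32 * (X : ℝ) ^ h' / Real.log X ^ k).card ≤ Y)
      exact h5.trans hYle

end Pool.Agent.Q273.CI
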