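import Mathlib
import Pool.Agent.TH464.PO.QuadAP
import Pool.Agent.Q273.CI.PolyD

/-!
# Almost prime values of quadratic polynomials with exact windows, at every term
-/

set_option autoImplicit false

namespace Pool.Agent.Q273.CI

open Polynomial Finset Filter
open Pool.Agent.W123.RP Pool.Agent.H373R2.T7 Pool.Agent.W123.RU Pool.Agent.W123.RU.Poly
open Pool.Agent.TH464.PW Pool.Agent.TH464.PO

lemma sf_APqM (M : ℕ) (hM : 1 ≤ M) (a b c : ℤ) (r : ℕ) (hr : 1 ≤ r) : ∀ᶠ X : ℕ in atTop, ∀ m : ℕ, m ≤ M * X →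
    (Sf (Q (qs a b c)) ⌊(X : ℝ) ^ (1 / (r : ℝ))⌋₊ m ↔ APq a b c r X m) := by
  have hr0 : (r : ℝ) ≠ 0 := by exact_mod_cast (by omega : r ≠ 0)
  have hrpos : (0 : ℝ) < r := by exact_mod_cast (by omega : 0 < r)
  have hMr : (1 : ℝ) ≤ M := by exact_mod_cast hM
  have hpow1 : Tendsto (fun X : ℕ => (X : ℝ) ^ (1 / (r : ℝ))) atTop atTop :=
    (tendsto_rpow_atTop (by positivity)).comp tendsto_natCast_atTop_atTop
  filter_upwards [hpow1.eventually_ge_atTop ((M : ℝ) ^ 2 * |(a : ℝ)| + M * |(b : ℝ)| + |(c : ℝ)| + 2),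
    eventually_ge_atTop 2] with X hX hX2
  intro m hm
  have hX0 : (0 : ℝ) < X := by exact_mod_cast (by omega : 0 < X)
  have hX1 : (1 : ℝ) ≤ X := by exact_mod_cast (by omega : 1 ≤ X)
  have ha0 := abs_nonneg (a : ℝ)
  have hb0 := abs_nonneg (b : ℝ)
  have hc0 := abs_nonneg (c : ℝ)
  have hMa : 0 ≤ (M : ℝ) ^ 2 * |(a : ℝ)| := by positivity
  have hMb : 0 ≤ (M : ℝ) * |(b : ℝ)| := by positivity
  have h2 : (2 : ℝ) ≤ (X : ℝ) ^ (1 / (r : ℝ)) := by linarith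
  have h2mem : 2 ∈ pz ⌊(X : ℝ) ^ (1 / (r : ℝ))⌋₊ := by
    rw [mem_pz]
    exact ⟨Nat.le_floor (by exact_mod_cast h2), Nat.prime_two⟩
  constructor
  · intro h
    have h3 : ∀ p : ℕ, p.Prime → (p : ℤ) ∣ a * (m : ℤ) ^ 2 + b * m + c →
        (X : ℝ) ^ (1 / (r : ℝ)) < (p : ℝ) := by
      intro p hp hd
      apply not_mem_pz hp
      intro hmem
      exact h p hmem ((qs_Q a b c p m).2 hd)
    have hne : a * (m : ℤ) ^ 2 + b * m + c ≠ 0 := by
      intro h0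
      apply h 2 h2mem
      rw [qs_Q, h0]
      exact dvd_zero _
    refine ⟨?_, h3⟩
    apply length_le _ (2 * r) (Int.natAbs_ne_zero.2 hne) _ (fun p hp hd => h3 p hp (Int.natCast_dvd.2 hd))
      _ (by linarith)
    have e1 : ((X : ℝ) ^ (1 / (r : ℝ))) ^ (2 * r + 1) = X ^ 2 * (X : ℝ) ^ (1 / (r : ℝ)) := by
      rw [pow_succ]
      congr 1
      rw [← Real.rpow_natCast, ← Real.rpow_mul hX0.le]
      have : (1 / (r : ℝ)) * ((2 * r : ℕ) : ℝ) = ((2 : ℕ) : ℝ) := by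
        push_cast
        field_simp
      rw [this, Real.rpow_natCast]
    rw [e1]
    have e2 : (((a * (m : ℤ) ^ 2 + b * m + c).natAbs : ℕ) : ℝ) = |(a : ℝ) * m ^ 2 + b * m + c| := by
      rw [Nat.cast_natAbs, Int.cast_abs]
      push_cast
      rfl
    rw [e2]
    have hm' : (m : ℝ) ≤ M * X := by exact_mod_cast hm
    have hm0 : (0 : ℝ) ≤ m := Nat.cast_nonneg m
    have hm2 : (m : ℝ) ^ 2 ≤ (M : ℝ) ^ 2 * (X : ℝ) ^ 2 := by
      calc (m : ℝ) ^ 2 ≤ ((M : ℝ) * (X : ℝ)) ^ 2 := pow_le_pow_left₀ hm0 hm' 2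
        _ = (M : ℝ) ^ 2 * (X : ℝ) ^ 2 := by ring
    have hXX : (X : ℝ) ≤ (X : ℝ) ^ 2 := by nlinarith
    have hX1' : (1 : ℝ) ≤ (X : ℝ) ^ 2 := one_le_pow₀ hX1
    calc |(a : ℝ) * m ^ 2 + b * m + c| ≤ |(a : ℝ) * m ^ 2| + |(b : ℝ) * m| + |(c : ℝ)| :=
          abs_add_three _ _ _
      _ = |(a : ℝ)| * m ^ 2 + |(b : ℝ)| * m + |(c : ℝ)| := by
          rw [abs_mul, abs_mul, abs_of_nonneg hm0, abs_of_nonneg (by positivity : (0 : ℝ) ≤ (m : ℝ) ^ 2)]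
      _ ≤ |(a : ℝ)| * ((M : ℝ) ^ 2 * (X : ℝ) ^ 2) + |(b : ℝ)| * (M * (X : ℝ) ^ 2) + |(c : ℝ)| * (X : ℝ) ^ 2 := by
          have t1 : |(a : ℝ)| * m ^ 2 ≤ |(a : ℝ)| * ((M : ℝ) ^ 2 * (X : ℝ) ^ 2) := by gcongr
          have t2 : |(b : ℝ)| * m ≤ |(b : ℝ)| * (M * (X : ℝ) ^ 2) := by
            apply mul_le_mul_of_nonneg_left _ hb0
            refine hm'.trans ?_
            gcongr
          have t3 : |(c : ℝ)| ≤ |(c : ℝ)| * (X : ℝ) ^ 2 := le_mul_of_one_le_right hc0 hX1'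
          linarith
      _ = (X : ℝ) ^ 2 * ((M : ℝ) ^ 2 * |(a : ℝ)| + M * |(b : ℝ)| + |(c : ℝ)|) := by ring
      _ ≤ (X : ℝ) ^ 2 * (X : ℝ) ^ (1 / (r : ℝ)) := by
          apply mul_le_mul_of_nonneg_left _ (by positivity)
          linarith
  · intro h p hp hq
    have h1 := h.2 p (mem_pz.1 hp).2 ((qs_Q a b c p m).1 hq)
    have h2 := mem_pz' (by positivity) hp
    linarith

open Classical in
/-- the number of the good integers -/
noncomputable def Nq (a b c : ℤ) (r X s t : ℕ) : ℕ :=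
  ((Finset.Ioc s t).filter (fun m => APq a b c r X m)).card

open Classical in
/-- the sieve density -/
noncomputable def Vqq (a b c : ℤ) (r X : ℕ) : ℝ :=
  ∏ p ∈ (Finset.range (⌊(X : ℝ) ^ (1 / (r : ℝ))⌋₊ + 1)).filter Nat.Prime,
    (1 - (((Finset.range p).filter
      (fun m : ℕ => (p : ℤ) ∣ a * (m : ℤ) ^ 2 + b * m + c)).card : ℝ) / p)

/-- the property of the terms -/
def GoodTerm (a b c : ℤ) (K ε h : ℝ) (r : ℕ) (x : ℝ) (m : ℕ) : Prop :=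
  APq a b c r ⌊x⌋₊ m ∧ ∀ s t : ℕ, s < m → m ≤ t → (t : ℝ) - s ≤ x ^ h →
    K ≤ ((t : ℝ) - s) * Vqq a b c r ⌊x⌋₊ →
    |(Nq a b c r ⌊x⌋₊ s t : ℝ) - (t - s) * Vqq a b c r ⌊x⌋₊| ≤ ε * ((t - s) * Vqq a b c r ⌊x⌋₊)

open Classical in
theorem quad_exact (a b c : ℤ) (ha : 0 < a)
    (hg : ∀ p : ℕ, p.Prime → ¬ ((p : ℤ) ∣ a ∧ (p : ℤ) ∣ b ∧ (p : ℤ) ∣ c))
    (hpar : ¬ (Even (a + b) ∧ Even c)) (hD : ¬ IsSquare (b ^ 2 - 4 * a * c))
    (C h ε : ℝ) (hC : 1 < C) (hh : 0 < h) (hη : h < 1 - 1 / C) (hε : 0 < ε) :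
    ∃ (K : ℝ) (r0 : ℕ), 0 < K ∧ ∀ r : ℕ, r0 ≤ r → ∀ x : ℕ → ℝ, (∀ n, 0 < x n) →
      Tendsto x atTop atTop → (∀ᶠ n in atTop, (x n) ^ C ≤ x (n + 1)) → ∀ u v : ℝ, 0 < u → u < v →
      dimH {α : ℝ | u < α ∧ α < v ∧ ∀ᶠ n in atTop, GoodTerm a b c K ε h r (x n) ⌊α * x n⌋₊} = 1 := by
  obtain ⟨K, r0, hK, H⟩ := sys_dim (qs a b c) (qs_sys a b c ha hg hpar hD) (qs_noTr a b c ha) C h ε hC hh hη hε
  refine ⟨K, max r0 1, hK, ?_⟩
  intro r hr x hx hxt hgrow u v hu huv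
  have hr1 : 1 ≤ r := (le_max_right _ _).trans hr
  have hv : 0 < v := by linarith
  have hh1 : h < 1 := by
    have : 0 < 1 / C := by
      have : 0 < C := by linarith
      positivity
    linarith
  apply le_antisymm
  · calc dimH _ ≤ dimH (Set.univ : Set ℝ) := dimH_mono (Set.subset_univ _)
      _ = 1 := Real.dimH_univ
  · rw [← H r ((le_max_left _ _).trans hr) x hx hxt hgrow u v hu huv]
    apply dimH_mono
    rintro α ⟨g1, g2, g3⟩
    refine ⟨g1, g2, ?_⟩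
    set M : ℕ := ⌈2 * (v + 1)⌉₊ with hM
    have hMv : 2 * (v + 1) ≤ M := Nat.le_ceil _
    have hM1 : 1 ≤ M := by
      have : (1 : ℝ) ≤ M := by linarith
      exact_mod_cast this
    have hfloor : Tendsto (fun n => ⌊x n⌋₊) atTop atTop := tendsto_nat_floor_atTop.comp hxt
    filter_upwards [g3, hfloor.eventually (sf_APqM M hM1 a b c r hr1), hxt.eventually_ge_atTop 2] with n hn1 hn2 hn3
    obtain ⟨z, hz⟩ : ∃ z : ℕ, z = ⌊x n⌋₊ := ⟨_, rfl⟩
    obtain ⟨m, hm⟩ : ∃ m : ℕ, m = ⌊α * x n⌋₊ := ⟨_, rfl⟩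
    unfold GoodAt lev at hn1
    unfold GoodTerm
    rw [← hm] at hn1 ⊢
    rw [← hz] at hn1 hn2 ⊢
    have hx0 := hx n
    have hzx : x n / 2 ≤ z := by
      have := Nat.lt_floor_add_one (x n)
      rw [← hz] at this
      linarith
    have hmx : (m : ℝ) ≤ v * x n := by
      rw [hm]
      have hα : 0 ≤ α * x n := by
        have : 0 < α := by linarith
        positivity
      refine (Nat.floor_le hα).trans ?_
      gcongr
    have hmM : m ≤ M * z := by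
      have : (m : ℝ) ≤ M * z := by
        calc (m : ℝ) ≤ v * x n := hmx
          _ ≤ (2 * (v + 1)) * (x n / 2) := by nlinarith
          _ ≤ M * z := by gcongr
      exact_mod_cast this
    have hV : Vq (Q (qs a b c)) ⌊(z : ℝ) ^ (1 / (r : ℝ))⌋₊ = Vqq a b c r z := qs_V a b c _
    rw [hV] at hn1
    refine ⟨(hn2 m hmM).1 hn1.1, fun s t hs ht hst hK' => ?_⟩
    have h1 := hn1.2 s t hs ht hst hK'
    have htM : t ≤ M * z := by
      have h2 : (x n) ^ h ≤ x n := by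
        calc (x n) ^ h ≤ (x n) ^ (1 : ℝ) := Real.rpow_le_rpow_of_exponent_le (by linarith) hh1.le
          _ = x n := Real.rpow_one _
      have h3 : (s : ℝ) < m := by exact_mod_cast hs
      have : (t : ℝ) ≤ M * z := by
        calc (t : ℝ) ≤ v * x n + x n := by linarith
          _ = (2 * (v + 1)) * (x n / 2) := by ring
          _ ≤ M * z := by gcongr
      exact_mod_cast this
    have hN : Nq a b c r z s t = Cc (Sf (Q (qs a b c)) ⌊(z : ℝ) ^ (1 / (r : ℝ))⌋₊) s t := by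
      unfold Nq Cc
      congr 1
      apply Finset.filter_congr
      intro k hk
      rw [mem_Ioc] at hk
      exact (hn2 k (by omega)).symm
    rw [hN]
    exact h1

end Pool.Agent.Q273.CI
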